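import Pool.Agent.Helper56.LP.EtDefs

/-!
# The minimal log discrepancies of nondegenerate pairs
-/

set_option autoImplicit false

namespace Pool.Agent.Helper56.LP

open Pool.Agent.H436R3.Fol Pool.Agent.H436R3.KT Pool.Agent.W497.Mld MvPolynomial
open Pool.Agent.Helper43K9.NH (wt dot)
open Pool.Agent.Helper43K9.CI (CIGerm)
open Pool.Agent.Helper58K9.ET (Etale OverPt Ext ordE)

variable {K : Type} [Field K] [Algebra ℂ K]

/-- The germ of `(X, B)` at `x`, where `K_X + B` has the local equation `e`, is in the chart the germ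
of the pair `(Z, ∑ b_k G_k + ∑ β_i D_i)` at `P`: the pull-backs to `U` of `K_X + B` and of the
restriction to `Z` of `K_Y + X_1 + ... + X_r + ∑ b_k G_k + ∑ β_i D_i`, which is given by the local
equation `y^(-ψ) ∏ G_k^(b_k)`, agree at the closed point `C.y` of `U` over `x` and `P`: they have the same
difference with the canonical divisor of `U` for all prime divisors over `C.y`. -/
def Chart.IsBdryAt {X : AffVar K} {x : Pt X} (C : Chart X x) (b : Bdry C.g C.G) {B : EffDiv X}
    (e : LocEq B x) : Prop :=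
  ∀ w : DVal C.L, OverPt C.S C.y w → ∀ n n' : ℤ, IsCanOrd C.T w n → IsCanOrd C.T' w n' →
    (n : ℝ) - ordE e w = (n' : ℝ) - (-dot b.ψ (wt (fun i => algebraMap C.M C.L (C.g.y i)) w) +
      ∑ k, b.b k * (w.ord (algebraMap C.M C.L (aeval C.g.y (C.G k))) : ℝ))

/-- The minimal log discrepancies `m ≥ 0` of the pairs `(X ∋ x, B)` which have a nondegenerate chart
of dimension `d` and codimension `r`, `d + r ≤ N`, in which the coefficients `b_k` and `β_i` of the
boundary lie in `Γ` if they are not `0`. -/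
def pairMlds (N : ℕ) (Γ : Set ℝ) : Set ℝ :=
  {m : ℝ | 0 ≤ m ∧ ∃ (K : Type) (_ : Field K) (_ : Algebra ℂ K) (X : AffVar K) (x : Pt X)
    (C : Chart X x) (b : Bdry C.g C.G) (B : EffDiv X) (e : LocEq B x), C.d + C.r ≤ N ∧
      C.IsBdryAt b e ∧ (∀ k, b.b k ≠ 0 → b.b k ∈ Γ) ∧ (∀ i, b.β i ≠ 0 → b.β i ∈ Γ) ∧
        Pool.Agent.W497.Mld.IsMld e m}

end Pool.Agent.Helper56.LP
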