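import Pool.Graph.R_pool_sql_team_seeded_1e53cb71.Helper43K9.NH.Comb

/-!
# Combinatorial minimal log discrepancies with several polynomials
-/

set_option autoImplicit false
set_option linter.unusedSectionVars false
set_option linter.unusedVariables false

namespace Pool.Agent.Helper56.LP

open Pool.Agent.TH165.ACC (pr ex Prim Cn Hs lead part mldsR pr_add pr_zero pr_neg pr_sub pr_smul
  pr_smul_right ex_add ex_inj exists_nat_ex)
open Pool.Agent.TH165.ACC (Coord coord_pr GE GE_finite coord_of_mem exists_simplex DualVec ordAlong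
  logDisc)
open Pool.Agent.Helper43K9.NH (phi phi_spec dot Inn)
open Pool.Agent.Helper43K9.NH.CombL

variable {n : ℕ}

theorem mem_mldsV {N : ℕ} {E : Fin N → Fin n → ℤ} {κ : Type} [Fintype κ]
    {S : κ → Finset (Fin n → ℤ)} (hS : ∀ k, (S k).Nonempty) {c : κ → ℝ} (hcc : ∀ k, 0 ≤ c k)
    {ψ : Fin n → ℝ} {β : Fin N → ℝ} (hβ : ∀ i, 0 ≤ β i)
    (hψ : ∀ i, dot ψ (E i) = 1 - β i + ∑ k, c k * (phi (S k) (E i) : ℝ)) {Γ : Set ℝ}
    (hΓc : ∀ k, c k ≠ 0 → c k ∈ Γ)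
    (hΓ : ∀ i, β i ≠ 0 → β i ∈ Γ) {a : ℝ} {u0 : Fin n → ℤ} (hu0 : Inn E u0)
    (h0 : dot ψ u0 - ∑ k, c k * (phi (S k) u0 : ℝ) = a)
    (hmin : ∀ u, Inn E u → a ≤ dot ψ u - ∑ k, c k * (phi (S k) u : ℝ)) :
    ∃ d ≤ n, ∃ r, a ∈ mldsR d r Γ := by
  classical
  have hcone : ∀ m ∈ Cn E, 0 ≤ pr m u0 := by
    intro m hm
    by_cases hm0 : m = 0
    · rw [hm0, pr_zero]
    · exact (hu0 m hm hm0).le
  obtain ⟨d, b, w0, hw0, hc0, D, hD⟩ := exists_simplex hcone
  have hc0' : Coord (fun i => E (b i)) w0 u0 := hc0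
  let A : Fin d → Fin n → ℤ := fun i => E (b i)
  let ι : Type := {i : Fin d // β (b i) ≠ 0} ⊕
    {k : κ // c k ≠ 0 ∧ (0 : Fin d → ℕ) ∉ SF (S k) A}
  let Si : ι → Set (Fin d → ℕ) :=
    Sum.elim (fun i => {(Pi.single i.1 1 : Fin d → ℕ)}) fun k => SF (S k.1) A
  let ci : ι → ℝ := Sum.elim (fun i => β (b i.1)) fun k => c k.1
  let φ : Fin (Fintype.card ι) ≃ ι := (Fintype.equivFin _).symm
  -- the log discrepancies
  have hkey : ∀ (w : Fin d → ℝ) (u : Fin n → ℤ), (∀ i, 0 ≤ w i) → Coord A w u →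
      logDisc (fun j => Si (φ j)) (fun j => ci (φ j)) w =
        dot ψ u - ∑ k, c k * (phi (S k) u : ℝ) := by
    intro w u hw hc
    have e1 : ∑ j, ci (φ j) * ordAlong (Si (φ j)) w = ∑ i, β (b i) * w i +
        ∑ k, c k * ((phi (S k) u : ℝ) - ∑ i, w i * (phi (S k) (A i) : ℝ)) := by
      rw [φ.sum_comp fun x => ci x * ordAlong (Si x) w, Fintype.sum_sum_type]
      congr 1
      · have h3 : ∑ i : {i : Fin d // β (b i) ≠ 0}, ci (Sum.inl i) * ordAlong (Si (Sum.inl i)) w =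
            ∑ i : {i : Fin d // β (b i) ≠ 0}, β (b i.1) * w i.1 :=
          Finset.sum_congr rfl fun i _ => by
            change β (b i.1) * ordAlong {(Pi.single i.1 1 : Fin d → ℕ)} w = _
            rw [Pool.Agent.TH165.ACC.ordAlong_single]
        rw [h3, ← Finset.sum_subtype (Finset.univ.filter fun i => β (b i) ≠ 0) (by simp)
          fun i => β (b i) * w i]
        refine Finset.sum_filter_of_ne fun i _ h4 h5 => h4 ?_
        rw [h5, zero_mul]
      · have h3 : ∑ k : {k : κ // c k ≠ 0 ∧ (0 : Fin d → ℕ) ∉ SF (S k) A},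
            ci (Sum.inr k) * ordAlong (Si (Sum.inr k)) w =
            ∑ k : {k : κ // c k ≠ 0 ∧ (0 : Fin d → ℕ) ∉ SF (S k) A},
              c k.1 * ordAlong (SF (S k.1) A) w := rfl
        rw [h3, ← Finset.sum_subtype
          (Finset.univ.filter fun k => c k ≠ 0 ∧ (0 : Fin d → ℕ) ∉ SF (S k) A) (by simp)
          fun k => c k * ordAlong (SF (S k) A) w]
        have h4 : ∀ k, c k * ((phi (S k) u : ℝ) - ∑ i, w i * (phi (S k) (A i) : ℝ)) =
            c k * ordAlong (SF (S k) A) w := fun k => by rw [ordAlong_SF (hS k) hc]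
        simp only [h4]
        refine Finset.sum_filter_of_ne fun k _ h5 => ⟨fun h6 => h5 ?_, fun h6 => h5 ?_⟩
        · rw [h6, zero_mul]
        · rw [Pool.Agent.TH165.ACC.ordAlong_of_zero h6 hw, mul_zero]
    have e2 : dot ψ u = ∑ i, w i * (1 - β (b i) + ∑ k, c k * (phi (S k) (A i) : ℝ)) := by
      rw [dot_coord ψ hc]
      exact Finset.sum_congr rfl fun i _ => by rw [hψ (b i)]
    rw [logDisc, e1, e2]
    have e3 : ∑ i, w i * (1 - β (b i) + ∑ k, c k * (phi (S k) (A i) : ℝ)) =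
        ∑ i, w i - ∑ i, β (b i) * w i + ∑ k, c k * ∑ i, w i * (phi (S k) (A i) : ℝ) := by
      have e4 : ∑ k, c k * ∑ i, w i * (phi (S k) (A i) : ℝ) =
          ∑ i, w i * ∑ k, c k * (phi (S k) (A i) : ℝ) := by
        simp only [Finset.mul_sum]
        rw [Finset.sum_comm]
        exact Finset.sum_congr rfl fun i _ => Finset.sum_congr rfl fun k _ => by ring
      rw [e4, ← Finset.sum_sub_distrib, ← Finset.sum_add_distrib]
      exact Finset.sum_congr rfl fun i _ => by ring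
    rw [e3]
    have e5 : ∑ k, c k * ((phi (S k) u : ℝ) - ∑ i, w i * (phi (S k) (A i) : ℝ)) =
        ∑ k, c k * (phi (S k) u : ℝ) - ∑ k, c k * ∑ i, w i * (phi (S k) (A i) : ℝ) := by
      rw [← Finset.sum_sub_distrib]
      exact Finset.sum_congr rfl fun k _ => by ring
    rw [e5]
    ring
  refine ⟨d, hD.le, Fintype.card ι, GE A, fun j => Si (φ j), fun j => ci (φ j), GE_finite hD, ?_,
    IsLeast.isGLB ⟨?_, ?_⟩⟩
  · intro j
    change (Si (φ j)).Nonempty ∧ 0 ∉ Si (φ j) ∧ ci (φ j) ∈ Γ ∧ 0 < ci (φ j)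
    generalize φ j = x
    rcases x with ⟨i, hi⟩ | ⟨k, hk, hx⟩
    · refine ⟨⟨_, rfl⟩, ?_, hΓ _ hi, lt_of_le_of_ne (hβ _) (Ne.symm hi)⟩
      intro h
      have h3 := congrFun (Set.mem_singleton_iff.1 h) i
      simp at h3
    · refine ⟨?_, hx, hΓc k hk, lt_of_le_of_ne (hcc k) (Ne.symm hk)⟩
      obtain ⟨m, hm⟩ := hS k
      obtain ⟨q, hq, -⟩ := SF_mem ⟨m, hm⟩ (A := A) hm
      exact ⟨q, hq⟩
  · exact ⟨w0, hw0, ⟨w0, _, rfl, hc0'⟩, by rw [hkey w0 u0 (fun i => (hw0 i).le) hc0', h0]⟩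
  · rintro _ ⟨w, hw, hwG, rfl⟩
    obtain ⟨u, hu⟩ := coord_of_mem hwG
    rw [hkey w u (fun i => (hw i).le) hu]
    exact hmin u (inn_of_coord hc0' hu0 hu hw)

end Pool.Agent.Helper56.LP
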