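import Pool.Agent.Helper56.LP.Hmin

/-!
# The minimal log discrepancy of a nondegenerate pair
-/

set_option autoImplicit false
set_option linter.unusedSectionVars false
set_option linter.unusedVariables false

namespace Pool.Agent.Helper56.LP

open Pool.Agent.Helper56.LC
open Pool.Agent.H436R3.Fol Pool.Agent.H436R3.KT Pool.Agent.W497.Mld MvPolynomial
open Pool.Agent.TH165.ACC (pr ex Prim Cn Hs lead part)
open Pool.Agent.Helper43K9.NH (ch AA wt Inn expo phi dot ch_ne phi_expo expo_nonempty phi_spec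
  mem_expo ge_of_weights)
open Pool.Agent.Helper43K9.CI

variable {r d s : ℕ} {L : Type} [Field L] [Algebra ℂ L]
variable {g : CIGerm r d L} {G : Fin s → MvPolynomial (Fin (d + r)) ℂ}

/-- the toric log discrepancy is a lower bound for the divisors with centre `P` -/
theorem lowP (hnd : NondegPair g G) (hG : ∀ k, aeval g.y (G k) ≠ 0) (b : Bdry g G) {v : DVal L}
    (hv : IsOverGerm g.P v) {c : ℤ} (hc : IsCanOrd g.X.T v c) :
    laP b (wt g.y v) ≤ 1 + (c : ℝ) + dot b.ψ (wt g.y v) -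
      ∑ k, b.b k * (v.ord (aeval g.y (G k)) : ℝ) := by
  classical
  have hge : ∀ k, phi (expo (G k)) (wt g.y v) ≤ v.ord (aeval g.y (G k)) := fun k =>
    (ge_of_weights g.yne (phi_expo (poly_ne (hG k)) _).2).resolve_left (hG k)
  obtain ⟨κ, _, _, η, T, hη, -, -, hF, hGk, -, -, hlow⟩ := pair_data g hG hv
  let K' : Finset (Fin s) := Finset.univ.filter fun k =>
    phi (expo (G k)) (wt g.y v) < v.ord (aeval g.y (G k))
  have h2 := (hlow K' (indep_lead hnd hη (inn_of_over hv) hF K' (by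
    intro k' hk'
    exact hGk k' (Finset.mem_filter.1 hk').2)) _ hc).2
  have h3 : ((∑ k ∈ K', (v.ord (aeval g.y (G k)) - phi (expo (G k)) (wt g.y v)) - 1 -
      ∑ j, phi (g.S j) (wt g.y v) : ℤ) : ℝ) ≤ (c : ℝ) := by exact_mod_cast h2
  push_cast at h3
  have h4 : ∑ k, b.b k * (v.ord (aeval g.y (G k)) : ℝ) ≤
      ∑ k, b.b k * (phi (expo (G k)) (wt g.y v) : ℝ) +
        ∑ k ∈ K', ((v.ord (aeval g.y (G k)) : ℝ) - (phi (expo (G k)) (wt g.y v) : ℝ)) := by
    have h5 : ∑ k ∈ K', ((v.ord (aeval g.y (G k)) : ℝ) - (phi (expo (G k)) (wt g.y v) : ℝ)) =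
        ∑ k, ((v.ord (aeval g.y (G k)) : ℝ) - (phi (expo (G k)) (wt g.y v) : ℝ)) := by
      refine Finset.sum_subset (Finset.subset_univ _) fun k _ hk => ?_
      have h6 : ¬ phi (expo (G k)) (wt g.y v) < v.ord (aeval g.y (G k)) := fun h7 =>
        hk (Finset.mem_filter.2 ⟨Finset.mem_univ _, h7⟩)
      have h7 : v.ord (aeval g.y (G k)) = phi (expo (G k)) (wt g.y v) :=
        le_antisymm (not_lt.1 h6) (hge k)
      rw [h7]
      ring
    rw [h5, ← Finset.sum_add_distrib]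
    refine Finset.sum_le_sum fun k _ => ?_
    have h6 : (phi (expo (G k)) (wt g.y v) : ℝ) ≤ (v.ord (aeval g.y (G k)) : ℝ) := by
      exact_mod_cast hge k
    have h7 := b.b_le_one k
    have h8 := b.b_nonneg k
    nlinarith
  rw [laP]
  linarith

/-- **The minimal log discrepancy is the least toric log discrepancy.** -/
theorem formP (hdr : 0 < d + r) (hnd : NondegPair g G) (hG : ∀ k, aeval g.y (G k) ≠ 0)
    (hk : KltPair g G) (b : Bdry g G) {m : ℝ} (hm0 : 0 ≤ m)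
    (hm : IsLeast {a : ℝ | ∃ v, IsOverGerm g.P v ∧ ∃ c : ℤ, IsCanOrd g.X.T v c ∧
      a = 1 + (c : ℝ) + dot b.ψ (wt g.y v) - ∑ k, b.b k * (v.ord (aeval g.y (G k)) : ℝ)} m) :
    IsLeast {a | ∃ w, Inn g.E w ∧ laP b w = a} m := by
  obtain ⟨v, hv, c, hc, hmv⟩ := hm.1
  have h0 := lowP hnd hG b hv hc
  rw [← hmv] at h0
  have h1 := hminP hdr hnd hG hk b hm0 fun v hv c hc => hm.2 ⟨v, hv, c, hc, rfl⟩
  refine ⟨⟨wt g.y v, inn_of_over hv, le_antisymm h0 (h1 _ (inn_of_over hv))⟩, ?_⟩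
  rintro _ ⟨w, hi, rfl⟩
  exact h1 w hi

end Pool.Agent.Helper56.LP
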