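import Pool.Agent.Helper56.LP.Et
import Pool.Agent.Helper56.LP.Form
import Pool.Agent.Helper56.LP.Comb
import Pool.Agent.Helper56.LP.AccDefs
import Pool.Graph.R_pool_sql_team_seeded_1e53cb71.Helper43K9.NH.Asm

/-!
# The ACC for nondegenerate pairs
-/

set_option autoImplicit false
set_option linter.unusedSectionVars false
set_option linter.unusedVariables false

namespace Pool.Agent.Helper56.LP

open Pool.Agent.Helper56.LC
open Pool.Agent.H436R3.Fol Pool.Agent.H436R3.KT Pool.Agent.W497.Mld MvPolynomial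
open Pool.Agent.TH165.ACC (pr ex Prim Cn Hs lead part mldsR acc acc_union IsACC)
open Pool.Agent.Helper43K9.NH (ch AA wt Inn expo phi dot expo_nonempty dcc_insert)
open Pool.Agent.Helper43K9.CI
open Pool.Agent.Helper58K9.ET

variable {K : Type} [Field K] [Algebra ℂ K] {X : AffVar K} {x : Pt X}

/-- the log discrepancies at the point -/
theorem Chart.discAt (C : Chart X x) {b : Bdry C.g C.G} {B : EffDiv X} {e : LocEq B x}
    (hb : C.IsBdryAt b e) (a : ℝ) :
    (∃ v, IsOverGerm x v ∧ IsLogDisc e v a) ↔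
      ∃ v, IsOverGerm C.g.P v ∧ ∃ n : ℤ, IsCanOrd C.g.X.T v n ∧
        a = 1 + (n : ℝ) + dot b.ψ (wt C.g.y v) -
          ∑ k, b.b k * (v.ord (aeval C.g.y (C.G k)) : ℝ) := by
  obtain ⟨r, d, s, pos, M, g, G, hG, nondeg, normal, klt, L, S, h, h', T, T', ext, ext', y, rfl,
    him'⟩ := C
  dsimp only [Chart.IsBdryAt] at hb b ⊢
  rw [Pool.Agent.Helper58K9.ET.disc up (down dens frac) dens (extd frac) appr h y T ext e a]
  rw [← him']
  constructor
  · rintro ⟨w, hw, n, hn, ha⟩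
    obtain ⟨n', hn'⟩ := chg T T' ext.top ext'.top w n hn
    obtain ⟨v, hv, hwv⟩ := down dens frac h' y w hw
    refine ⟨v, hv, n', (can dens (extd frac) appr h' y w v hw hwv T' ext' n').2 hn', ?_⟩
    have h1 := hb w hw n n' hn hn'
    have h2 : wt (fun i => algebraMap M L (g.y i)) w = wt g.y v := by
      funext i
      exact hwv _ (g.yne i)
    have h3 : ∀ k, w.ord (algebraMap M L (aeval g.y (G k))) =
        v.ord (aeval g.y (G k)) := fun k => hwv _ (hG k)
    rw [h2] at h1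
    simp only [h3] at h1
    rw [ha]
    linarith
  · rintro ⟨v, hv, n', hn', ha⟩
    obtain ⟨w, hw, hwv⟩ := up h' y v hv
    have hn'' := (can dens (extd frac) appr h' y w v hw hwv T' ext' n').1 hn'
    obtain ⟨n, hn⟩ := chg T' T ext'.top ext.top w n' hn''
    refine ⟨w, hw, n, hn, ?_⟩
    have h1 := hb w hw n n' hn hn''
    have h2 : wt (fun i => algebraMap M L (g.y i)) w = wt g.y v := by
      funext i
      exact hwv _ (g.yne i)
    have h3 : ∀ k, w.ord (algebraMap M L (aeval g.y (G k))) =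
        v.ord (aeval g.y (G k)) := fun k => hwv _ (hG k)
    rw [h2] at h1
    simp only [h3] at h1
    rw [ha]
    linarith

/-- the minimal log discrepancy is combinatorial -/
theorem Chart.mem_comb (C : Chart X x) {b : Bdry C.g C.G} {B : EffDiv X} {e : LocEq B x}
    (hb : C.IsBdryAt b e) {Γ : Set ℝ} (hΓb : ∀ k, b.b k ≠ 0 → b.b k ∈ Γ)
    (hΓβ : ∀ i, b.β i ≠ 0 → b.β i ∈ Γ) {m : ℝ} (hm0 : 0 ≤ m)
    (hm : Pool.Agent.W497.Mld.IsMld e m) :
    ∃ k ≤ C.d + C.r, ∃ s, m ∈ mldsR k s (insert 1 Γ) := by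
  have hm' : IsLeast {a : ℝ | ∃ v, IsOverGerm C.g.P v ∧ ∃ c : ℤ, IsCanOrd C.g.X.T v c ∧
      a = 1 + (c : ℝ) + dot b.ψ (wt C.g.y v) -
        ∑ k, b.b k * (v.ord (aeval C.g.y (C.G k)) : ℝ)} m := by
    have h1 : {a : ℝ | ∃ v, IsOverGerm C.g.P v ∧ ∃ c : ℤ, IsCanOrd C.g.X.T v c ∧
      a = 1 + (c : ℝ) + dot b.ψ (wt C.g.y v) -
        ∑ k, b.b k * (v.ord (aeval C.g.y (C.G k)) : ℝ)} =
        {a | ∃ v, IsOverGerm x v ∧ IsLogDisc e v a} := by
      ext a
      exact (C.discAt hb a).symm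
    rw [h1]
    exact hm
  obtain ⟨⟨w, hw, h1⟩, h2⟩ := formP C.pos C.nondeg C.hG C.klt b hm0 hm'
  let S : Fin C.r ⊕ Fin C.s → Finset (Fin (C.d + C.r) → ℤ) :=
    Sum.elim C.g.S fun k => expo (C.G k)
  let c : Fin C.r ⊕ Fin C.s → ℝ := Sum.elim (fun _ => 1) b.b
  have hla : ∀ u, dot b.ψ u - ∑ k, c k * (phi (S k) u : ℝ) = laP b u := by
    intro u
    rw [laP, Fintype.sum_sum_type]
    simp only [S, c, Sum.elim_inl, Sum.elim_inr, one_mul]
    ring
  refine mem_mldsV (E := C.g.E) (S := S) (c := c) (ψ := b.ψ) (β := b.β) ?_ ?_ b.nonneg ?_ ?_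
    (fun i hi => Set.mem_insert_of_mem _ (hΓβ i hi)) hw (by rw [hla, h1]) ?_
  · rintro (j | k)
    · exact S_ne C.g j
    · exact expo_nonempty (poly_ne (C.hG k))
  · rintro (j | k)
    · exact zero_le_one
    · exact b.b_nonneg k
  · intro i
    rw [b.eq, Fintype.sum_sum_type]
    simp only [S, c, Sum.elim_inl, Sum.elim_inr, one_mul]
    ring
  · rintro (j | k) h
    · exact Set.mem_insert _ _
    · exact Set.mem_insert_of_mem _ (hΓb k h)
  · intro u hu
    rw [hla]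
    exact h2 ⟨u, hu, rfl⟩

theorem acc_pairMlds (N : ℕ) {Γ : Set ℝ} (hΓ : Pool.Agent.TH165.ACC.IsDCC Γ) :
    IsACC (pairMlds N Γ) := by
  intro u hu hmem
  refine acc_union (N := N) (S := fun k => {a | ∃ s, a ∈ mldsR k s (insert 1 Γ)})
    (fun k _ => acc (dcc_insert hΓ)) u hu fun k => ?_
  obtain ⟨h0, K, i1, i2, X, x, C, b, B, e, hN, hb, h1, h2, hm⟩ := hmem k
  obtain ⟨j, hj, h3⟩ := C.mem_comb hb h1 h2 h0 hm
  exact ⟨j, hj.trans hN, h3⟩

end Pool.Agent.Helper56.LP
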