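import Pool.Agent.Helper56.LP.Hmin

/-!
# Lower semicontinuity for nondegenerate pairs
-/

set_option autoImplicit false
set_option linter.unusedSectionVars false
set_option linter.unusedVariables false

namespace Pool.Agent.Helper56.LP

open Pool.Agent.Helper56.LC
open Pool.Agent.H436R3.Fol Pool.Agent.H436R3.KT Pool.Agent.W497.Mld MvPolynomial Filter
open Pool.Agent.TH165.ACC (pr ex Prim Cn Hs lead part pr_add pr_zero pr_neg pr_sub pr_smul
  pr_smul_right ex_add ex_inj)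
open Pool.Agent.Helper43K9.NH (ch AA wt Inn expo phi dot ch_ne phi_expo expo_nonempty phi_spec
  mem_expo ge_of_weights)
open Pool.Agent.Helper43K9.CI
open Pool.Agent.Helper43K9.LS (mld)

variable {r d s : ℕ} {L : Type} [Field L] [Algebra ℂ L]
variable {g : CIGerm r d L} {G : Fin s → MvPolynomial (Fin (d + r)) ℂ}

theorem semiP (hdr : 0 < d + r) (hnd : NondegPair g G) (hG : ∀ k, aeval g.y (G k) ≠ 0)
    (hk : KltPair g G) {b : Bdry g G} {B : EffDiv g.X}
    {e : LocEq B g.P} (hr : IsRestrAt b e) {x : Pt g.X} {e' : LocEq B x} (hr' : IsRestrAt b e')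
    (hx : ∀ v, IsOverGerm x v → ∀ c, IsCanOrd g.X.T v c →
      ∃ w', Inn g.E w' ∧ laP b w' ≤ 1 + (c : ℝ) + dot b.ψ (wt g.y v) -
        ∑ k, b.b k * (v.ord (aeval g.y (G k)) : ℝ)) :
    mld e ≤ mld e' := by
  by_cases hneg : ∃ v a, IsOverGerm g.P v ∧ IsLogDisc e v a ∧ a < 0
  · rw [mld, if_pos hneg]
    exact bot_le
  have hI : mld e = sInf {a : EReal | ∃ v r, IsOverGerm g.P v ∧ IsLogDisc e v r ∧
    a = (r : EReal)} := by rw [mld, if_neg hneg]
  push Not at hneg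
  have h0 : 0 ≤ mld e := by
    rw [hI]
    apply le_sInf
    rintro _ ⟨v, r, hv, hlr, rfl⟩
    exact_mod_cast hneg v r hv hlr
  have key : ∀ v, IsOverGerm x v → ∀ a, IsLogDisc e' v a → mld e ≤ (a : EReal) := by
    rintro v hv a ⟨c, hc, rfl⟩
    obtain ⟨w', hw', hle⟩ := hx v hv c hc
    rw [hr' v]
    by_contra hlt
    push Not at hlt
    obtain ⟨q, hq1, hq2⟩ := EReal.lt_iff_exists_real_btwn.1 hlt
    have h1 : max q 0 ≤ laP b w' := by
      refine hminP hdr hnd hG hk b (le_max_right _ _) (fun v' hv' c' hc' => ?_) w' hw'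
      have ha' : IsLogDisc e v' (1 + (c' : ℝ) + dot b.ψ (wt g.y v') -
          ∑ k, b.b k * (v'.ord (aeval g.y (G k)) : ℝ)) := by
        refine ⟨c', hc', ?_⟩
        rw [hr]
        ring
      refine max_le ?_ (hneg v' _ hv' ha')
      have h2 : mld e ≤ ((1 + (c' : ℝ) + dot b.ψ (wt g.y v') -
          ∑ k, b.b k * (v'.ord (aeval g.y (G k)) : ℝ) : ℝ) : EReal) := by
        rw [hI]
        exact sInf_le ⟨v', _, hv', ha', rfl⟩
      exact_mod_cast (hq2.trans_le h2).le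
    have h2 := (le_max_left q 0).trans h1
    have h3 : 1 + (c : ℝ) - (-dot b.ψ (wt g.y v) +
      ∑ k, b.b k * (v.ord (aeval g.y (G k)) : ℝ)) < q := by exact_mod_cast hq1
    linarith
  by_cases hneg' : ∃ v a, IsOverGerm x v ∧ IsLogDisc e' v a ∧ a < 0
  · obtain ⟨v, a, hv, ha, hlt⟩ := hneg'
    have h1 := h0.trans (key v hv a ha)
    have h2 : (0 : ℝ) ≤ a := by exact_mod_cast h1
    exact absurd hlt (not_lt.2 h2)
  · have hI' : mld e' = sInf {a : EReal | ∃ v r, IsOverGerm x v ∧ IsLogDisc e' v r ∧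
      a = (r : EReal)} := by rw [mld, if_neg hneg']
    rw [hI']
    apply le_sInf
    rintro _ ⟨v, r, hv, hlr, rfl⟩
    exact key v hv r hlr

/-- the toric log discrepancy at `w + ∑ E_k` -/
theorem laP_le (hG0 : ∀ k, G k ≠ 0) (b : Bdry g G) (J : Finset (Fin g.N)) (w : Fin (d + r) → ℤ)
    {k : Fin r → ℤ} {k' : Fin s → ℤ} (hk : ∀ j, phi (g.S j) w + ∑ i ∈ J, phi (g.S j) (g.E i) +
      k j ≤ phi (g.S j) (w + ∑ i ∈ J, g.E i))
    (hk' : ∀ j, phi (expo (G j)) w + ∑ i ∈ J, phi (expo (G j)) (g.E i) + k' j ≤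
      phi (expo (G j)) (w + ∑ i ∈ J, g.E i)) :
    laP b (w + ∑ i ∈ J, g.E i) ≤
      dot b.ψ w - ∑ j, (phi (g.S j) w : ℝ) + J.card - ∑ j, (k j : ℝ) -
        ∑ j, b.b j * ((phi (expo (G j)) w : ℝ) + k' j) := by
  have h1 : ∑ i ∈ J, dot b.ψ (g.E i) ≤ (J.card : ℝ) + ∑ i ∈ J, ∑ j, (phi (g.S j) (g.E i) : ℝ) +
      ∑ i ∈ J, ∑ k, b.b k * (phi (expo (G k)) (g.E i) : ℝ) := by
    have h2 : ∑ i ∈ J, dot b.ψ (g.E i) ≤ ∑ i ∈ J, (1 + ∑ j, (phi (g.S j) (g.E i) : ℝ) +
        ∑ k, b.b k * (phi (expo (G k)) (g.E i) : ℝ)) := by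
      refine Finset.sum_le_sum fun i _ => ?_
      rw [b.eq]
      have := b.nonneg i
      linarith
    rw [Finset.sum_add_distrib, Finset.sum_add_distrib, Finset.sum_const, nsmul_eq_mul,
      mul_one] at h2
    exact h2
  have h2 : ∀ j, (phi (g.S j) w : ℝ) + ∑ i ∈ J, (phi (g.S j) (g.E i) : ℝ) + k j ≤
      (phi (g.S j) (w + ∑ i ∈ J, g.E i) : ℝ) := fun j => by exact_mod_cast hk j
  have h3 := Finset.sum_le_sum fun j (_ : j ∈ Finset.univ) => h2 j
  rw [Finset.sum_add_distrib, Finset.sum_add_distrib] at h3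
  rw [Finset.sum_comm] at h1
  have h4 : ∑ j, b.b j * ((phi (expo (G j)) w : ℝ) + k' j) +
      ∑ i ∈ J, ∑ k, b.b k * (phi (expo (G k)) (g.E i) : ℝ) ≤
        ∑ k, b.b k * (phi (expo (G k)) (w + ∑ i ∈ J, g.E i) : ℝ) := by
    rw [Finset.sum_comm, ← Finset.sum_add_distrib]
    refine Finset.sum_le_sum fun j _ => ?_
    rw [← Finset.mul_sum, ← mul_add]
    refine mul_le_mul_of_nonneg_left ?_ (b.b_nonneg j)
    have h5 := hk' j
    have h6 : (phi (expo (G j)) w : ℝ) + ∑ i ∈ J, (phi (expo (G j)) (g.E i) : ℝ) + k' j ≤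
        (phi (expo (G j)) (w + ∑ i ∈ J, g.E i) : ℝ) := by exact_mod_cast h5
    linarith
  rw [laP, Pool.Agent.Helper58K9.CI.dot_add, Pool.Agent.Helper58K9.CI.dot_sum]
  linarith

theorem coreP (hnd : NondegPair g G) (hG : ∀ k, aeval g.y (G k) ≠ 0) :
    ∃ f : g.X.R, g.P f ≠ 0 ∧
    ∀ x : Pt g.X, x f ≠ 0 → ∀ v, IsOverGerm x v → ∀ c, IsCanOrd g.X.T v c → ∀ b : Bdry g G,
      ∃ w', Inn g.E w' ∧ laP b w' ≤ 1 + (c : ℝ) + dot b.ψ (wt g.y v) -
        ∑ k, b.b k * (v.ord (aeval g.y (G k)) : ℝ) := by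
  classical
  have hG0 : ∀ k, G k ≠ 0 := fun k => poly_ne (hG k)
  by_contra hcon
  push Not at hcon
  let ι : Type := {f : g.X.R // g.P f ≠ 0}
  have hcon' : ∀ i : ι, ∃ (x : Pt g.X) (v : DVal L) (c : ℤ) (b : Bdry g G), x i.1 ≠ 0 ∧
      IsOverGerm x v ∧ IsCanOrd g.X.T v c ∧ ∀ w', Inn g.E w' →
        1 + (c : ℝ) + dot b.ψ (wt g.y v) - ∑ k, b.b k * (v.ord (aeval g.y (G k)) : ℝ) <
          laP b w' := by
    intro i
    obtain ⟨x, hx, v, hv, c, hc, b, hb⟩ := hcon i.1 i.2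
    exact ⟨x, v, c, b, hx, hv, hc, hb⟩
  choose x v c b hx hv hc hbad using hcon'
  -- the ultrafilter
  let 𝓕 : Filter ι := ⨅ h : ι, 𝓟 {f : ι | (h : g.X.R) ∣ (f : g.X.R)}
  have hne : 𝓕.NeBot := by
    have : Nonempty ι := ⟨⟨1, by rw [map_one]; exact one_ne_zero⟩⟩
    refine iInf_neBot_of_directed ?_ fun h => ?_
    · intro h1 h2
      refine ⟨⟨(h1 : g.X.R) * h2, by rw [map_mul]; exact mul_ne_zero h1.2 h2.2⟩, ?_, ?_⟩
      · exact principal_mono.2 fun f hf => (dvd_mul_right _ _).trans hf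
      · exact principal_mono.2 fun f hf => (dvd_mul_left _ _).trans hf
    · rw [principal_neBot_iff]
      exact ⟨h, dvd_refl (h : g.X.R)⟩
  let 𝒰 : Ultrafilter ι := Ultrafilter.of 𝓕
  have hU : ∀ h : g.X.R, g.P h ≠ 0 → ∀ᶠ i in (𝒰 : Filter ι), x i h ≠ 0 := by
    intro h hh
    have h1 : {f : ι | h ∣ (f : g.X.R)} ∈ 𝓕 :=
      mem_iInf_of_mem (⟨h, hh⟩ : ι) (mem_principal_self _)
    have h2 : {f : ι | h ∣ (f : g.X.R)} ∈ (𝒰 : Filter ι) := Ultrafilter.of_le 𝓕 h1
    filter_upwards [h2] with i hi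
    obtain ⟨k, hk⟩ := hi
    intro h0
    apply hx i
    rw [hk, map_mul, h0, zero_mul]
  -- the data
  have hdata := fun i : ι => pair_data g hG (hv i)
  choose Kι fι aι η T hη hw hconst hlead hleadG hP hT hlow using hdata
  obtain ⟨T0, -, hT0⟩ := uf_const 𝒰 Finset.univ T fun i => Finset.mem_univ _
  obtain ⟨K', -, hK'⟩ := uf_const 𝒰 (Finset.univ : Finset (Finset (Fin s)))
    (fun i => Finset.univ.filter fun k =>
      phi (expo (G k)) (wt g.y (v i)) < (v i).ord (aeval g.y (G k))) fun i => Finset.mem_univ _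
  obtain ⟨pol, hpol⟩ : ∃ pol : Fin r ⊕ K' → MvPolynomial (Fin (d + r)) ℂ,
    pol = Sum.elim g.F (fun k : K' => G k) := ⟨_, rfl⟩
  have hpol0 : ∀ a, pol a ≠ 0 := by
    rintro (j | k)
    · rw [hpol]
      exact g.Fne j
    · rw [hpol]
      exact hG0 k
  let ε : Fin (Fintype.card (Fin r ⊕ K')) ≃ Fin r ⊕ K' := (Fintype.equivFin _).symm
  have hnd' := nd_family hnd K' ε
  rw [← hpol] at hnd'
  obtain ⟨J, hJ⟩ := limit_main 𝒰 g.E g.full (fun a => pol (ε a)) (fun a => hpol0 _) hnd' η hη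
    (fun i => wt g.y (v i)) hw hconst (by
      filter_upwards [hK'] with i hi a
      rw [hpol]
      rcases ε a with j | k
      · exact hlead i j
      · refine hleadG i k ?_
        have h1 : (k : Fin s) ∈ Finset.univ.filter fun k =>
            phi (expo (G k)) (wt g.y (v i)) < (v i).ord (aeval g.y (G k)) := by
          rw [hi]
          exact k.2
        exact (Finset.mem_filter.1 h1).2) (by
      intro S a hS h0 ha
      have h1 : ∀ S' ∈ S.powerset, ∃ h : g.X.R,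
          (h : L) = ∑ m ∈ S', algebraMap ℂ L (a m) * ch g.y m ∧ (0 ∈ S' → g.P h = a 0) :=
        fun S' hS' => exists_sum g S' (fun m hm => hS m (Finset.mem_powerset.1 hS' hm)) a
      choose! h hh hh0 using h1
      have h2 : ∀ᶠ i in (𝒰 : Filter ι), ∀ S' ∈ S.powerset, 0 ∈ S' → x i (h S') ≠ 0 := by
        rw [Filter.eventually_all_finset]
        intro S' hS'
        by_cases h0' : 0 ∈ S'
        · filter_upwards [hU (h S') (by rw [hh0 S' hS' h0']; exact ha)] with i hi _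
          exact hi
        · exact Filter.Eventually.of_forall fun i h3 => absurd h3 h0'
      filter_upwards [h2] with i hi hsum
      obtain ⟨S', hS', h0', h3⟩ := hP i S a hS hsum
      exact hi S' (Finset.mem_powerset.2 hS') (h0' h0)
        (h3 (h S') (hh S' (Finset.mem_powerset.2 hS')))) T0 (by
      filter_upwards [hT0] with i hi
      rw [← hi]
      exact hT i)
  obtain ⟨i, ⟨hInn, hli, hcard⟩, hiT, hiK⟩ := (hJ.and (hT0.and hK')).exists
  have hli' : LinearIndependent (Kι i) fun a : Fin r ⊕ K' =>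
      lg (η i) (lead (wt g.y (v i)) (Sum.elim g.F (fun k : K' => G k) a)) := by
    rw [← hpol]
    exact (linearIndependent_equiv ε).1 hli
  have h1 := (hlow i K' hli' (c i) (hc i)).1
  obtain ⟨w, hw'⟩ : ∃ w, w = wt g.y (v i) := ⟨_, rfl⟩
  simp only [← hw'] at h1 hInn hcard hiK
  refine absurd (hbad i _ hInn) (not_lt.2 ?_)
  rw [← hw']
  -- the counts
  let Q : MvPolynomial (Fin (d + r)) ℂ → Prop := fun p => ∃ m ∈ expo p,
    pr m w = phi (expo p) w ∧ ∀ k ∈ J, pr m (g.E k) = phi (expo p) (g.E k)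
  have hcard' : T0.card + J.card + (∑ j, (if Q (g.F j) then 1 else 0) +
      ∑ k ∈ K', (if Q (G k) then 1 else 0)) ≤ d + r := by
    refine le_trans (le_of_eq ?_) hcard
    congr 1
    rw [Finset.card_filter, ε.sum_comp fun a => if (∃ m ∈ expo (pol a),
      pr m w = phi (expo (pol a)) w ∧ ∀ k ∈ J, pr m (g.E k) = phi (expo (pol a)) (g.E k)) then 1
        else 0, Fintype.sum_sum_type, hpol]
    congr 1
    exact (Finset.sum_coe_sort K' fun k => if Q (G k) then 1 else 0).symm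
  have h2 := laP_le hG0 (b i) J w (k := fun j => if Q (g.F j) then 0 else 1)
    (k' := fun j => if Q (G j) then 0 else 1) (by
    intro j
    have h3 := phi_grow (E := g.E) (S_ne g j) J w
    split_ifs with h4
    · rw [add_zero]
      exact h3.1
    · exact h3.2 h4) (by
    intro j
    have h3 := phi_grow (E := g.E) (expo_nonempty (hG0 j)) J w
    split_ifs with h4
    · rw [add_zero]
      exact h3.1
    · exact h3.2 h4)
  have h3 : ∑ j, (((if Q (g.F j) then 0 else 1 : ℤ) : ℤ) : ℝ) =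
      (r : ℝ) - ∑ j, (if Q (g.F j) then 1 else 0 : ℝ) := by
    have h4 : ∀ j, (((if Q (g.F j) then 0 else 1 : ℤ) : ℤ) : ℝ) =
        1 - (if Q (g.F j) then 1 else 0 : ℝ) := by
      intro j
      split_ifs <;> simp
    simp only [h4]
    rw [Finset.sum_sub_distrib]
    simp
  rw [h3] at h2
  have h4 : (T0.card : ℝ) + J.card + (∑ j, (if Q (g.F j) then 1 else 0 : ℝ) +
      ∑ k ∈ K', (if Q (G k) then 1 else 0 : ℝ)) ≤ ((d + r : ℕ) : ℝ) := by
    have := (Nat.cast_le (α := ℝ)).2 hcard'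
    push_cast at this ⊢
    exact this
  have h5 : ∑ k ∈ K', (((v i).ord (aeval g.y (G k)) : ℝ) - (phi (expo (G k)) w : ℝ)) +
      ((d + r : ℕ) : ℝ) - (T i).card - r - K'.card - 1 - ∑ j, (phi (g.S j) w : ℝ) ≤ (c i : ℝ) := by
    exact_mod_cast h1
  rw [hiT] at h5
  -- the boundary
  have h6 : ∑ k, (b i).b k * ((v i).ord (aeval g.y (G k)) : ℝ) ≤
      ∑ j, (b i).b j * ((phi (expo (G j)) w : ℝ) + ((if Q (G j) then 0 else 1 : ℤ) : ℝ)) +
        ∑ k ∈ K', (((v i).ord (aeval g.y (G k)) : ℝ) - (phi (expo (G k)) w : ℝ) - 1 +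
          (if Q (G k) then 1 else 0 : ℝ)) := by
    have h7 : ∑ k ∈ K', (((v i).ord (aeval g.y (G k)) : ℝ) - (phi (expo (G k)) w : ℝ) - 1 +
          (if Q (G k) then 1 else 0 : ℝ)) = ∑ k, (if k ∈ K' then
            (((v i).ord (aeval g.y (G k)) : ℝ) - (phi (expo (G k)) w : ℝ) - 1 +
              (if Q (G k) then 1 else 0 : ℝ)) else 0) := by
      rw [Finset.sum_ite_mem, Finset.univ_inter]
    rw [h7, ← Finset.sum_add_distrib]
    refine Finset.sum_le_sum fun k _ => ?_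
    have hb0 := (b i).b_nonneg k
    have hb1 := (b i).b_le_one k
    by_cases hk : k ∈ K'
    · rw [if_pos hk]
      rw [← hiK] at hk
      have h8 : phi (expo (G k)) w + 1 ≤ (v i).ord (aeval g.y (G k)) :=
        (Finset.mem_filter.1 hk).2
      have h9 : (phi (expo (G k)) w : ℝ) + 1 ≤ ((v i).ord (aeval g.y (G k)) : ℝ) := by
        exact_mod_cast h8
      split_ifs
      · push_cast
        nlinarith
      · push_cast
        nlinarith
    · rw [if_neg hk]
      have h8 : (v i).ord (aeval g.y (G k)) ≤ phi (expo (G k)) w := by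
        by_contra h10
        apply hk
        rw [← hiK]
        exact Finset.mem_filter.2 ⟨Finset.mem_univ _, not_le.1 h10⟩
      have h9 : ((v i).ord (aeval g.y (G k)) : ℝ) ≤ (phi (expo (G k)) w : ℝ) := by
        exact_mod_cast h8
      split_ifs
      · push_cast
        nlinarith
      · push_cast
        nlinarith
  have h7 : ∑ k ∈ K', (((v i).ord (aeval g.y (G k)) : ℝ) - (phi (expo (G k)) w : ℝ) - 1 +
      (if Q (G k) then 1 else 0 : ℝ)) =
      ∑ k ∈ K', (((v i).ord (aeval g.y (G k)) : ℝ) - (phi (expo (G k)) w : ℝ)) - K'.card +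
        ∑ k ∈ K', (if Q (G k) then 1 else 0 : ℝ) := by
    rw [Finset.sum_add_distrib, Finset.sum_sub_distrib]
    simp
  rw [h7] at h6
  linarith

end Pool.Agent.Helper56.LP
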