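import Pool.Agent.Helper56.LC.Res

/-!
# Nondegenerate pairs: complete intersections in toric varieties, with a boundary
-/

set_option autoImplicit false

namespace Pool.Agent.Helper56.LP

open Pool.Agent.H436R3.Fol Pool.Agent.H436R3.KT Pool.Agent.W497.Mld MvPolynomial
open Pool.Agent.TH165.ACC (pr ex Prim Cn Hs lead part)
open Pool.Agent.Helper43K9.NH (ch AA wt Inn expo phi dot)
open Pool.Agent.Helper43K9.CI (CIGerm)

variable {r d s : ℕ} {L : Type} [Field L] [Algebra ℂ L]

/-- A boundary `∑ b_k G_k + ∑ β_i D_i` on the toric variety `Y`, where `G_k` also stands for the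
closure of the zero set of the Laurent polynomial `G_k` in the torus, such that
`K_Y + X_1 + ... + X_r + ∑ b_k G_k + ∑ β_i D_i` is `ℝ`-Cartier at `P`, with the local equation
`y^(-ψ) ∏ G_k^(b_k)`. (With the form `dy_1 / y_1 ∧ ... ∧ dy_(d + r) / y_(d + r) / (F_1 ... F_r)` this
divisor is `∑ b_k div (G_k) + ∑ (β_i - 1 - ∑_j φ_(F_j) (E_i) - ∑_k b_k φ_(G_k) (E_i)) D_i`.) -/
structure Bdry (g : CIGerm r d L) (G : Fin s → MvPolynomial (Fin (d + r)) ℂ) where
  b : Fin s → ℝ
  b_nonneg : ∀ k, 0 ≤ b k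
  b_le_one : ∀ k, b k ≤ 1
  β : Fin g.N → ℝ
  nonneg : ∀ i, 0 ≤ β i
  ψ : Fin (d + r) → ℝ
  eq : ∀ i, dot ψ (g.E i) = 1 - β i + ∑ j, (phi (g.S j) (g.E i) : ℝ) +
    ∑ k, b k * (phi (expo (G k)) (g.E i) : ℝ)

variable {g : CIGerm r d L} {G : Fin s → MvPolynomial (Fin (d + r)) ℂ}

/-- The toric log discrepancy of the pair `(Y, X_1 + ... + X_r + ∑ b_k G_k + ∑ β_i D_i)`. -/
noncomputable def laP (b : Bdry g G) (w : Fin (d + r) → ℤ) : ℝ :=
  dot b.ψ w - ∑ j, (phi (g.S j) w : ℝ) - ∑ k, b.b k * (phi (expo (G k)) w : ℝ)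

/-- The system `F_1, ..., F_r, G_1, ..., G_s` is nondegenerate at `P`: for all weights in the interior
of the cone the zero sets in the torus of the initial forms of the `G_k` meet the one of the initial
forms of `F_1, ..., F_r` and each other transversally: at every common zero `ξ` in the torus of the
initial forms of the `F_j` the differentials of the initial forms of the `F_j`, and of those of the
`G_k` which vanish at `ξ`, are linearly independent. -/
def NondegPair (g : CIGerm r d L) (G : Fin s → MvPolynomial (Fin (d + r)) ℂ) : Prop :=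
  ∀ w, Inn g.E w → ∀ ξ : Fin (d + r) → ℂ, (∀ i, ξ i ≠ 0) →
    (∀ j, eval ξ (lead w (g.F j)) = 0) →
      LinearIndependent ℂ fun (a : Fin r ⊕ {k : Fin s // eval ξ (lead w (G k)) = 0})
        (i : Fin (d + r)) =>
          eval ξ (pderiv i (lead w (Sum.elim g.F (fun k => G (k : Fin s)) a)))

/-- `K_X + B` is the restriction to `X` of `K_Y + X_1 + ... + X_r + ∑ b_k G_k + ∑ β_i D_i`, near the
closed point `x`: it has the local equation `y^(-ψ) ∏ G_k^(b_k)`. -/
def IsRestrAt (b : Bdry g G) {B : EffDiv g.X} {x : Pt g.X} (e : LocEq B x) : Prop :=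
  ∀ v : DVal L, ∑ i, e.ρ i * (v.ord (e.g i) : ℝ) =
    -dot b.ψ (wt g.y v) + ∑ k, b.b k * (v.ord (aeval g.y (G k)) : ℝ)

/-- `X` is of klt type, in the embedded sense: for some boundary `∑ b_k' G_k + ∑ β_i' D_i` the log
discrepancies of the pair `(Y, X_1 + ... + X_r + ∑ b_k' G_k + ∑ β_i' D_i)` at the toric valuations with
centre `P` are bounded from below by a positive multiple of the order of a monomial which vanishes
on the boundary of `Y`. -/
def KltPair (g : CIGerm r d L) (G : Fin s → MvPolynomial (Fin (d + r)) ℂ) : Prop :=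
  ∃ (b : Bdry g G) (ε : ℝ) (Q : Fin (d + r) → ℤ), 0 < ε ∧ (∀ i, 0 < pr Q (g.E i)) ∧
    ∀ w, Inn g.E w → ε * (pr Q w : ℝ) ≤ laP b w

end Pool.Agent.Helper56.LP
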