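import Pool.Agent.Helper56.LP.Defs
import Pool.Graph.R_pool_sql_team_seeded_1e53cb71.Helper58K9.ET.Defs

/-!
# Nondegenerate charts: definitions
-/

set_option autoImplicit false

namespace Pool.Agent.Helper56.LP

open Pool.Agent.H436R3.Fol Pool.Agent.H436R3.KT Pool.Agent.W497.Mld MvPolynomial
open Pool.Agent.Helper43K9.NH (wt dot)
open Pool.Agent.Helper43K9.CI (CIGerm)
open Pool.Agent.Helper58K9.ET (Etale OverPt Ext ordE)

variable {K : Type} [Field K] [Algebra ℂ K]

/-- A nondegenerate chart of the variety `X` at the closed point `x`: a nondegenerate system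
`F_1, ..., F_r, G_1, ..., G_s` on an affine toric variety `Y` with the fixed point `P`, the complete
intersection `Z = g.X` of the `F_j` is normal and of klt type, and a variety `U = Spec S` with étale
morphisms `h : U → X` and `h' : U → Z` and a closed point `y` of `U` over `x` and `P`. The
foliations `T` and `T'` are the bases of the rational vector fields of `U` which extend the ones of
`X` and `Z`. -/
structure Chart (X : AffVar K) (x : Pt X) where
  r : ℕ
  d : ℕ
  s : ℕ
  pos : 0 < d + r
  M : Type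
  [fieldM : Field M]
  [algM : Algebra ℂ M]
  g : CIGerm r d M
  G : Fin s → MvPolynomial (Fin (d + r)) ℂ
  hG : ∀ k, aeval g.y (G k) ≠ 0
  nondeg : NondegPair g G
  normal : IsNormal g.X
  klt : KltPair g G
  L : Type
  [fieldL : Field L]
  [algL : Algebra ℂ L]
  [algKL : Algebra K L]
  [towerK : IsScalarTower ℂ K L]
  [algML : Algebra M L]
  [towerM : IsScalarTower ℂ M L]
  S : Subalgebra ℂ L
  h : Etale X S
  h' : Etale g.X S
  T : Foliation L X.d
  T' : Foliation L g.X.d
  ext : Ext X T
  ext' : Ext g.X T'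
  y : S →ₐ[ℂ] ℂ
  im : h.im y = x
  im' : h'.im y = g.P

attribute [instance] Chart.fieldM Chart.algM Chart.fieldL Chart.algL Chart.algKL Chart.towerK
  Chart.algML Chart.towerM

/-- `(X, B)` is in the chart the pair `(Z, ∑ b_k G_k + ∑ β_i D_i)`: the pull-backs to `U` of `K_X + B`
and of the restriction to `Z` of `K_Y + X_1 + ... + X_r + ∑ b_k G_k + ∑ β_i D_i`, which is given by the
local equation `y^(-ψ) ∏ G_k^(b_k)`, agree: they have the same difference with the canonical
divisor of `U`. -/
def Chart.IsBdry {X : AffVar K} {x : Pt X} (C : Chart X x) (b : Bdry C.g C.G) {B : EffDiv X}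
    (E : ∀ x : Pt X, LocEq B x) : Prop :=
  ∀ (y : C.S →ₐ[ℂ] ℂ) (w : DVal C.L), OverPt C.S y w → ∀ n n' : ℤ, IsCanOrd C.T w n →
    IsCanOrd C.T' w n' → (n : ℝ) - ordE (E (C.h.im y)) w =
      (n' : ℝ) - (-dot b.ψ (wt (fun i => algebraMap C.M C.L (C.g.y i)) w) +
        ∑ k, b.b k * (w.ord (algebraMap C.M C.L (aeval C.g.y (C.G k))) : ℝ))

end Pool.Agent.Helper56.LP
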