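import Pool.Agent.Helper56.LP.Core
import Pool.Agent.Helper56.LP.EtDefs
import Pool.Graph.R_pool_sql_team_seeded_1e53cb71.Helper58K9.ET.Asm
import Pool.Graph.R_pool_sql_team_seeded_1e53cb71.Helper58K9.ET.Dens
import Pool.Graph.R_pool_sql_team_seeded_1e53cb71.Helper58K9.ET.Down
import Pool.Graph.R_pool_sql_team_seeded_1e53cb71.Helper58K9.ET.Up
import Pool.Graph.R_pool_sql_team_seeded_1e53cb71.Helper58K9.ET.Extd
import Pool.Graph.R_pool_sql_team_seeded_1e53cb71.Helper58K9.ET.Appr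
import Pool.Graph.R_pool_sql_team_seeded_1e53cb71.Helper58K9.ET.Chg
import Pool.Graph.R_pool_sql_team_seeded_1e53cb71.Helper58K9.ET.Opn
import Pool.Graph.R_pool_sql_team_seeded_1e53cb71.Helper58K9.ET.Refl

/-!
# Lower semicontinuity in nondegenerate charts
-/

set_option autoImplicit false
set_option linter.unusedSectionVars false
set_option linter.unusedVariables false

namespace Pool.Agent.Helper56.LP

open Pool.Agent.H436R3.Fol Pool.Agent.H436R3.KT Pool.Agent.W497.Mld MvPolynomial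
open Pool.Agent.Helper43K9.NH (wt dot Inn)
open Pool.Agent.Helper43K9.CI (CIGerm)
open Pool.Agent.Helper58K9.ET
open Pool.Agent.Helper58K9.AR (mld)

variable {K : Type} [Field K] [Algebra ℂ K]

theorem mld_le {X : AffVar K} {B : EffDiv X} {x x' : Pt X} {e : LocEq B x} {e' : LocEq B x'}
    (h : ∀ q : ℝ, 0 ≤ q → (∀ a, (∃ v, IsOverGerm x v ∧ IsLogDisc e v a) → q ≤ a) →
      ∀ a, (∃ v, IsOverGerm x' v ∧ IsLogDisc e' v a) → q ≤ a) : mld e ≤ mld e' := by
  by_cases hneg : ∃ v a, IsOverGerm x v ∧ IsLogDisc e v a ∧ a < 0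
  · rw [mld, if_pos hneg]
    exact bot_le
  have hI : mld e = sInf {a : EReal | ∃ v r, IsOverGerm x v ∧ IsLogDisc e v r ∧
    a = (r : EReal)} := by rw [mld, if_neg hneg]
  push Not at hneg
  have h0 := h 0 le_rfl fun a ha => by
    obtain ⟨v, hv, ha⟩ := ha
    exact hneg v a hv ha
  have hneg' : ¬ ∃ v a, IsOverGerm x' v ∧ IsLogDisc e' v a ∧ a < 0 := by
    rintro ⟨v, a, hv, ha, hlt⟩
    exact absurd hlt (not_lt.2 (h0 a ⟨v, hv, ha⟩))
  have hI' : mld e' = sInf {a : EReal | ∃ v r, IsOverGerm x' v ∧ IsLogDisc e' v r ∧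
      a = (r : EReal)} := by rw [mld, if_neg hneg']
  rw [hI']
  apply le_sInf
  rintro _ ⟨v, a, hv, ha, rfl⟩
  by_contra hlt
  push Not at hlt
  obtain ⟨q, hq1, hq2⟩ := EReal.lt_iff_exists_real_btwn.1 hlt
  have h1 := h (max q 0) (le_max_right _ _) (fun a' ha' => by
    obtain ⟨v', hv', ha'⟩ := ha'
    refine max_le ?_ (hneg v' a' hv' ha')
    have h2 : mld e ≤ (a' : EReal) := by
      rw [hI]
      exact sInf_le ⟨v', a', hv', ha', rfl⟩
    exact_mod_cast (hq2.trans_le h2).le) a ⟨v, hv, ha⟩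
  have h2 : a < q := by exact_mod_cast hq1
  exact absurd h2 (not_lt.2 ((le_max_left _ _).trans h1))

variable {X : AffVar K} {x : Pt X}

/-- the log discrepancies at the points of the chart -/
theorem Chart.disc (C : Chart X x) {b : Bdry C.g C.G} {B : EffDiv X} {E : ∀ x : Pt X, LocEq B x}
    (hb : C.IsBdry b E) (y : C.S →ₐ[ℂ] ℂ) (a : ℝ) :
    (∃ v, IsOverGerm (C.h.im y) v ∧ IsLogDisc (E (C.h.im y)) v a) ↔
      ∃ v, IsOverGerm (C.h'.im y) v ∧ ∃ n : ℤ, IsCanOrd C.g.X.T v n ∧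
        a = 1 + (n : ℝ) + dot b.ψ (wt C.g.y v) -
          ∑ k, b.b k * (v.ord (aeval C.g.y (C.G k)) : ℝ) := by
  rw [Pool.Agent.Helper58K9.ET.disc up (down dens frac) dens (extd frac) appr C.h y C.T C.ext
    (E (C.h.im y)) a]
  constructor
  · rintro ⟨w, hw, n, hn, ha⟩
    obtain ⟨n', hn'⟩ := chg C.T C.T' C.ext.top C.ext'.top w n hn
    obtain ⟨v, hv, hwv⟩ := down dens frac C.h' y w hw
    refine ⟨v, hv, n', (can dens (extd frac) appr C.h' y w v hw hwv C.T' C.ext' n').2 hn', ?_⟩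
    have h1 := hb y w hw n n' hn hn'
    have h2 : wt (fun i => algebraMap C.M C.L (C.g.y i)) w = wt C.g.y v := by
      funext i
      exact hwv _ (C.g.yne i)
    have h3 : ∀ k, w.ord (algebraMap C.M C.L (aeval C.g.y (C.G k))) =
        v.ord (aeval C.g.y (C.G k)) := fun k => hwv _ (C.hG k)
    rw [h2] at h1
    simp only [h3] at h1
    rw [ha]
    linarith
  · rintro ⟨v, hv, n', hn', ha⟩
    obtain ⟨w, hw, hwv⟩ := up C.h' y v hv
    have hn'' := (can dens (extd frac) appr C.h' y w v hw hwv C.T' C.ext' n').1 hn'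
    obtain ⟨n, hn⟩ := chg C.T' C.T C.ext'.top C.ext.top w n' hn''
    refine ⟨w, hw, n, hn, ?_⟩
    have h1 := hb y w hw n n' hn hn''
    have h2 : wt (fun i => algebraMap C.M C.L (C.g.y i)) w = wt C.g.y v := by
      funext i
      exact hwv _ (C.g.yne i)
    have h3 : ∀ k, w.ord (algebraMap C.M C.L (aeval C.g.y (C.G k))) =
        v.ord (aeval C.g.y (C.G k)) := fun k => hwv _ (C.hG k)
    rw [h2] at h1
    simp only [h3] at h1
    rw [ha]
    linarith

/-- lower semicontinuity in a nondegenerate chart -/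
theorem Chart.lsc (C : Chart X x) : ∃ f : X.R, x f ≠ 0 ∧ ∀ (B : EffDiv X)
    (E : ∀ x : Pt X, LocEq B x) (b : Bdry C.g C.G), C.IsBdry b E →
      ∀ x' : Pt X, x' f ≠ 0 → mld (E x) ≤ mld (E x') := by
  obtain ⟨q, hq, hcore⟩ := coreP C.nondeg C.hG
  have hq' : C.y (C.h'.inc q) ≠ 0 := by
    have h1 : C.h'.im C.y q = C.y (C.h'.inc q) := rfl
    rw [← h1, C.im']
    exact hq
  obtain ⟨f, hf, hO⟩ := opn C.h C.y (C.h'.inc q) hq'
  rw [C.im] at hf
  refine ⟨f, hf, fun B E b hb x' hx' => ?_⟩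
  obtain ⟨y', rfl, hy'⟩ := hO x' hx'
  have hP : ∀ a : ℝ, (∃ v, IsOverGerm x v ∧ IsLogDisc (E x) v a) ↔
      ∃ v, IsOverGerm C.g.P v ∧ ∃ n : ℤ, IsCanOrd C.g.X.T v n ∧
        a = 1 + (n : ℝ) + dot b.ψ (wt C.g.y v) -
          ∑ k, b.b k * (v.ord (aeval C.g.y (C.G k)) : ℝ) := by
    intro a
    have h1 := C.disc hb C.y a
    rw [C.im'] at h1
    have h2 : ∀ x'' : Pt X, x'' = x → ((∃ v, IsOverGerm x'' v ∧ IsLogDisc (E x'') v a) ↔
        ∃ v, IsOverGerm x v ∧ IsLogDisc (E x) v a) := by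
      rintro _ rfl
      rfl
    rw [← h2 _ C.im]
    exact h1
  refine mld_le fun m hm0 hm a ha => ?_
  rw [C.disc hb y' a] at ha
  obtain ⟨v, hv, c, hc, rfl⟩ := ha
  obtain ⟨w', hw', hle⟩ := hcore (C.h'.im y') hy' v hv c hc b
  refine le_trans ?_ hle
  refine hminP C.pos C.nondeg C.hG C.klt b hm0 (fun v' hv' c' hc' => ?_) w' hw'
  exact hm _ ((hP _).2 ⟨v', hv', c', hc', rfl⟩)

/-- a nondegenerate pair is its own chart at the fixed point -/
noncomputable def selfChart {r d s : ℕ} (hdr : 0 < d + r) {L : Type} [Field L] [Algebra ℂ L]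
    (g : CIGerm r d L) (G : Fin s → MvPolynomial (Fin (d + r)) ℂ)
    (hG : ∀ k, aeval g.y (G k) ≠ 0) (hnd : NondegPair g G) (hn : IsNormal g.X)
    (hk : KltPair g G) : Chart g.X g.P :=
  letI : Algebra L L := Algebra.id L
  { r := r
    d := d
    s := s
    pos := hdr
    M := L
    g := g
    G := G
    hG := hG
    nondeg := hnd
    normal := hn
    klt := hk
    L := L
    S := g.X.R
    h := idEtale g.X
    h' := idEtale g.X
    T := g.X.T
    T' := g.X.T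
    ext := ⟨g.X.top, fun _ _ => rfl⟩
    ext' := ⟨g.X.top, fun _ _ => rfl⟩
    y := g.P
    im := idEtale_im g.X g.P
    im' := idEtale_im g.X g.P }

theorem selfChart_isBdry {r d s : ℕ} (hdr : 0 < d + r) {L : Type} [Field L] [Algebra ℂ L]
    (g : CIGerm r d L) (G : Fin s → MvPolynomial (Fin (d + r)) ℂ)
    (hG : ∀ k, aeval g.y (G k) ≠ 0) (hnd : NondegPair g G) (hn : IsNormal g.X)
    (hk : KltPair g G) (b : Bdry g G) {B : EffDiv g.X} (E : ∀ x : Pt g.X, LocEq B x)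
    (hE : ∀ x, IsRestrAt b (E x)) : (selfChart hdr g G hG hnd hn hk).IsBdry b E := by
  intro y w hw n n' hn hn'
  have h1 := hn.unique hn'
  rw [h1]
  have h2 := hE ((idEtale g.X).im y) w
  exact congrArg (fun z : ℝ => (n' : ℝ) - z) h2

end Pool.Agent.Helper56.LP
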