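import Pool.Agent.Helper56.LC.Res

/-!
# The lower bound of the canonical order, for complete intersections with a boundary
-/

set_option autoImplicit false
set_option linter.unusedSectionVars false
set_option linter.unusedVariables false

namespace Pool.Agent.Helper56.LP

section linear

open Submodule

variable {K : Type*} [Field K]

theorem exists_basis_gain {d r : ℕ} {ι' : Type} [Fintype ι'] {θ : Fin r → Fin (d + r) → K}
    {γ : ι' → Fin (d + r) → K} (hθ : LinearIndependent K (Sum.elim θ γ)) (e : ι' → ℤ)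
    {B : Finset (Fin (d + r) → K)}
    (hB : LinearIndepOn K id (B : Set (Fin (d + r) → K))) :
    ∃ (u : Fin d → Fin (d + r) → K) (c : Fin d → ℤ),
      (Matrix.of fun l i : Fin (d + r) =>
        (Fin.addCases (fun i => u i l) (fun j => θ j l) i : K)).det ≠ 0 ∧
      ∑ k, e k + B.card ≤ ∑ i, c i + r + Fintype.card ι' ∧ ∑ k, e k ≤ ∑ i, c i ∧
      ∀ i, (∃ k, u i = γ k ∧ c i = e k) ∨ (u i ∈ B ∧ c i = 1) ∨
        ((∃ l, u i = Pi.single l 1) ∧ c i = 0) := by
  classical
  have hθs : LinearIndepOn K id (Set.range (Sum.elim θ γ)) := hθ.linearIndepOn_id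
  have hfr : (Set.range (Sum.elim θ γ)).Finite := Set.finite_range _
  obtain ⟨s1, h1, h2, h3, h4⟩ := exists_linearIndepOn_id_extension (K := K)
    (s := Set.range (Sum.elim θ γ))
    (t := Set.range (Sum.elim θ γ) ∪ (B : Set (Fin (d + r) → K))) hθs Set.subset_union_left
  have hf1 : s1.Finite := (hfr.union B.finite_toSet).subset h1
  obtain ⟨s2, k1, k2, k3, k4⟩ := exists_linearIndepOn_id_extension (K := K)
    (s := s1) (t := s1 ∪ Set.range fun l : Fin (d + r) => (Pi.single l 1 : Fin (d + r) → K)) h4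
    Set.subset_union_left
  have hf2 : s2.Finite := (hf1.union (Set.finite_range _)).subset k1
  obtain ⟨b, hb⟩ : ∃ b : Finset (Fin (d + r) → K), ∀ x, x ∈ b ↔ x ∈ s2 :=
    ⟨hf2.toFinset, fun x => hf2.mem_toFinset⟩
  obtain ⟨b1, hb1⟩ : ∃ b1 : Finset (Fin (d + r) → K), ∀ x, x ∈ b1 ↔ x ∈ s1 :=
    ⟨hf1.toFinset, fun x => hf1.mem_toFinset⟩
  have hbs : (b : Set (Fin (d + r) → K)) = s2 := Set.ext hb
  have hb1s : (b1 : Set (Fin (d + r) → K)) = s1 := Set.ext hb1
  have hθinj : Function.Injective θ := fun i j h => by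
    have h5 := hθ.injective (a₁ := Sum.inl i) (a₂ := Sum.inl j) h
    exact Sum.inl.inj h5
  have hγinj : Function.Injective γ := fun i j h => by
    have h5 := hθ.injective (a₁ := Sum.inr i) (a₂ := Sum.inr j) h
    exact Sum.inr.inj h5
  have hθγ : ∀ i j, θ i ≠ γ j := fun i j h => by
    have h5 := hθ.injective (a₁ := Sum.inl i) (a₂ := Sum.inr j) h
    exact absurd h5 (by simp)
  set Θ := Finset.univ.image θ with hΘ
  set Γ := Finset.univ.image γ with hΓ
  have hΘc : Θ.card = r := by
    rw [hΘ, Finset.card_image_of_injective _ hθinj, Finset.card_univ, Fintype.card_fin]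
  have hΓc : Γ.card = Fintype.card ι' := by
    rw [hΓ, Finset.card_image_of_injective _ hγinj, Finset.card_univ]
  have hθΘ : ∀ j, θ j ∈ Θ := fun j => Finset.mem_image_of_mem _ (Finset.mem_univ _)
  have hγΓ : ∀ j, γ j ∈ Γ := fun j => Finset.mem_image_of_mem _ (Finset.mem_univ _)
  have hb1b : b1 ⊆ b := by
    intro x hx
    rw [hb1] at hx
    rw [hb]
    exact k2 hx
  have hΘb1 : Θ ⊆ b1 := by
    intro x hx
    rw [hΘ, Finset.mem_image] at hx
    obtain ⟨j, -, rfl⟩ := hx
    rw [hb1]
    exact h2 ⟨Sum.inl j, rfl⟩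
  have hΓb1 : Γ ⊆ b1 := by
    intro x hx
    rw [hΓ, Finset.mem_image] at hx
    obtain ⟨j, -, rfl⟩ := hx
    rw [hb1]
    exact h2 ⟨Sum.inr j, rfl⟩
  have hΓΘ : Γ ⊆ b \ Θ := by
    intro x hx
    rw [Finset.mem_sdiff]
    refine ⟨hb1b (hΓb1 hx), fun h => ?_⟩
    rw [hΓ, Finset.mem_image] at hx
    rw [hΘ, Finset.mem_image] at h
    obtain ⟨j, -, rfl⟩ := hx
    obtain ⟨i, -, h⟩ := h
    exact hθγ i j h
  have hb1card : B.card ≤ b1.card := by
    have e1 : LinearIndepOn K id (b1 : Set (Fin (d + r) → K)) := by rwa [hb1s]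
    rw [← finrank_span_finset_eq_card e1, ← finrank_span_finset_eq_card hB]
    apply Submodule.finrank_mono
    rw [Submodule.span_le, hb1s]
    exact Set.subset_union_right.trans h3
  have hbind : LinearIndepOn K id (b : Set (Fin (d + r) → K)) := by rwa [hbs]
  have hbcard : b.card = d + r := by
    rw [← finrank_span_finset_eq_card hbind, hbs]
    have e2 : span K s2 = ⊤ := by
      rw [eq_top_iff, ← (Pi.basisFun K (Fin (d + r))).span_eq, Submodule.span_le]
      rintro _ ⟨l, rfl⟩
      apply k3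
      right
      exact ⟨l, by simp [Pi.basisFun_apply]⟩
    rw [e2, finrank_top, Module.finrank_fin_fun]
  have hcard : (b \ Θ).card = d := by
    rw [Finset.card_sdiff_of_subset (hΘb1.trans hb1b), hbcard, hΘc]
    omega
  let σ : Fin d ≃ ↥(b \ Θ) := (Finset.equivFinOfCardEq hcard).symm
  let u : Fin d → Fin (d + r) → K := fun i => (σ i : Fin (d + r) → K)
  have hu : ∀ i, u i ∈ b ∧ u i ∉ Θ := fun i => by
    have := (σ i).2
    rw [Finset.mem_sdiff] at this
    exact this
  let cc : (Fin (d + r) → K) → ℤ := fun x =>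
    if h : ∃ k, γ k = x then e h.choose else if x ∈ b1 then 1 else 0
  have hccγ : ∀ k, cc (γ k) = e k := by
    intro k
    have h : ∃ k', γ k' = γ k := ⟨k, rfl⟩
    simp only [cc]
    rw [dif_pos h]
    rw [hγinj h.choose_spec]
  have hcc0 : ∀ x, x ∉ Γ → cc x = if x ∈ b1 then 1 else 0 := by
    intro x hx
    simp only [cc]
    rw [dif_neg]
    rintro ⟨k, rfl⟩
    exact hx (hγΓ k)
  have hsum : ∑ i, cc (u i) = ∑ k, e k + ((b1 \ Θ) \ Γ).card := by
    have e1 : ∑ i, cc (u i) = ∑ x ∈ b \ Θ, cc x := by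
      rw [← Finset.sum_coe_sort (b \ Θ) cc]
      exact Equiv.sum_comp σ fun x => cc x
    rw [e1, ← Finset.sum_sdiff hΓΘ, add_comm]
    congr 1
    · rw [hΓ, Finset.sum_image fun i _ j _ h => hγinj h]
      exact Finset.sum_congr rfl fun k _ => hccγ k
    · rw [Finset.sum_congr rfl fun x hx => hcc0 x (Finset.mem_sdiff.1 hx).2, Finset.sum_boole]
      congr 2
      ext x
      simp only [Finset.mem_filter, Finset.mem_sdiff]
      constructor
      · rintro ⟨⟨⟨-, h5⟩, h6⟩, h7⟩
        exact ⟨⟨h7, h5⟩, h6⟩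
      · rintro ⟨⟨h7, h5⟩, h6⟩
        exact ⟨⟨⟨hb1b h7, h5⟩, h6⟩, h7⟩
  have hc2 : ((b1 \ Θ) \ Γ).card + Fintype.card ι' + r = b1.card := by
    have e1 : Γ ⊆ b1 \ Θ := fun x hx =>
      Finset.mem_sdiff.2 ⟨hΓb1 hx, (Finset.mem_sdiff.1 (hΓΘ hx)).2⟩
    have e2 := Finset.card_sdiff_add_card_eq_card e1
    have e3 := Finset.card_sdiff_add_card_eq_card hΘb1
    omega
  refine ⟨u, fun i => cc (u i), ?_, ?_, ?_, ?_⟩
  · let f : Fin (d + r) → Fin (d + r) → K := Fin.addCases u θ
    have hfl : ∀ i, f (Fin.castAdd r i) = u i := fun i => Fin.addCases_left _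
    have hfr : ∀ j, f (Fin.natAdd d j) = θ j := fun j => Fin.addCases_right _
    have hf : ∀ i, f i ∈ b := by
      intro i
      refine Fin.addCases (fun i => ?_) (fun j => ?_) i
      · rw [hfl]
        exact (hu i).1
      · rw [hfr]
        exact hb1b (hΘb1 (hθΘ j))
    have hinj : Function.Injective f := by
      intro i j hij
      revert hij
      refine Fin.addCases (fun i => ?_) (fun i => ?_) i <;>
        refine Fin.addCases (fun j => ?_) (fun j => ?_) j <;> intro hij
      · rw [hfl, hfl] at hij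
        rw [σ.injective (Subtype.ext hij)]
      · rw [hfl, hfr] at hij
        exact absurd (hij ▸ hθΘ j) (hu i).2
      · rw [hfl, hfr] at hij
        exact absurd (hij.symm ▸ hθΘ i) (hu j).2
      · rw [hfr, hfr] at hij
        rw [hθinj hij]
    have hind : LinearIndependent K f :=
      LinearIndependent.comp hbind (fun i => ⟨f i, hf i⟩)
        (fun i j hij => hinj (congrArg Subtype.val hij))
    have hunit : IsUnit (Matrix.of f) := by
      rw [← Matrix.linearIndependent_rows_iff_isUnit]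
      exact hind
    have h8 : (Matrix.of f).det ≠ 0 := ((Matrix.isUnit_iff_isUnit_det _).1 hunit).ne_zero
    rw [← Matrix.det_transpose] at h8
    have h9 : (Matrix.of fun l i : Fin (d + r) =>
        (Fin.addCases (fun i => u i l) (fun j => θ j l) i : K)) = (Matrix.of f).transpose := by
      ext l i
      refine Fin.addCases (fun i => ?_) (fun i => ?_) i
      · simp [f]
      · simp [f]
    rw [h9]
    exact h8
  · simp only [hsum]
    omega
  · simp only [hsum]
    omega
  · intro i
    by_cases hi : u i ∈ Γ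
    · left
      rw [hΓ, Finset.mem_image] at hi
      obtain ⟨k, -, hk⟩ := hi
      refine ⟨k, hk.symm, ?_⟩
      change cc (u i) = e k
      rw [← hk, hccγ]
    right
    have hcci : cc (u i) = if u i ∈ b1 then 1 else 0 := hcc0 _ hi
    by_cases hi1 : u i ∈ b1
    · left
      refine ⟨?_, by change cc (u i) = 1; rw [hcci, if_pos hi1]⟩
      have hi' := hi1
      rw [hb1] at hi'
      rcases h1 hi' with ⟨j, hj⟩ | h
      · rcases j with j | j
        · exact absurd (show u i ∈ Θ by rw [← hj]; exact hθΘ j) (hu i).2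
        · exact absurd (show u i ∈ Γ by rw [← hj]; exact hγΓ j) hi
      · exact h
    · right
      refine ⟨?_, by change cc (u i) = 0; rw [hcci, if_neg hi1]⟩
      have hi' := (hu i).1
      rw [hb] at hi'
      rcases k1 hi' with h | ⟨l, hl⟩
      · exact absurd (by rw [hb1]; exact h) hi1
      · exact ⟨l, hl.symm⟩

end linear

open Pool.Agent.H436R3.Fol Pool.Agent.H436R3.KT Pool.Agent.W497.Mld MvPolynomial
open Pool.Agent.TH165.ACC (pr ex Prim Cn Hs lead part mvI mem_mvI ord_eq_zero_of_notMem)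
open Pool.Agent.Helper43K9.NH (ch AA wt Inn expo phi dot)
open Pool.Agent.Helper43K9.CI
open Pool.Agent.Helper43K9.LS (Kp red Red Good red_eq_zero red_of_one red_of_zero det_ord_zero)

variable {r d : ℕ} {L : Type} [Field L] [Algebra ℂ L]

/-- The vector `u` is the reduction of the normalised logarithmic derivatives `s⁻¹ θ_l (h)` of a
function `h` whose order is at least `c` more than the one of `s`. -/
def Gd {n : ℕ} (y : Fin n → L) (v : DVal L) (c : ℤ) (u : Fin n → Kp v) : Prop :=
  ∃ (h s : L) (M : Fin n → L), s ≠ 0 ∧ (h = 0 ∨ v.ord s + c ≤ v.ord h) ∧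
    (∀ D : Derivation ℂ L L, D h = s * ∑ l, M l * (D (y l) / y l)) ∧ Red v M u

/-- the lower bound for the canonical order -/
theorem low_gain {g : CIGerm r d L} {v : DVal L} {φ : Fin r → ℤ} {t : Fin r → L}
    (ht : ∀ j, t j ≠ 0) (ht' : ∀ j, v.ord (t j) = φ j) {θ : Fin r → Fin (d + r) → Kp v}
    (hθ : ∀ j, Red v (fun l => aeval g.y (X l * pderiv l (g.F j)) / t j) (θ j))
    {ι' : Type} [Fintype ι'] {γ : ι' → Fin (d + r) → Kp v} (e : ι' → ℤ)
    (hγ : ∀ k, Gd g.y v (e k) (γ k)) (hθi : LinearIndependent (Kp v) (Sum.elim θ γ))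
    {B : Finset (Fin (d + r) → Kp v)} (hB : ∀ u ∈ B, Good g.y v u)
    (hind : LinearIndepOn (Kp v) id (B : Set (Fin (d + r) → Kp v)))
    (A : Matrix (Fin g.X.d) (Fin g.X.d) L) (hA0 : A.det ≠ 0)
    (hA : ∀ i, Preserves v (∑ j, A i j • g.X.T.D j)) :
    ∑ k, e k + (B.card : ℤ) - r - Fintype.card ι' - 1 - ∑ j, φ j ≤ v.ord A.det ∧
      ∑ k, e k - 1 - ∑ j, φ j ≤ v.ord A.det := by
  classical
  obtain ⟨u, c, hdet, hc, hc', hu⟩ := exists_basis_gain hθi e hind
  -- the functions
  have hdata : ∀ i, Gd g.y v (c i) (u i) := by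
    intro i
    rcases hu i with ⟨k, h1, h3⟩ | ⟨h1, h3⟩ | ⟨⟨l, hl⟩, h3⟩
    · rw [h1, h3]
      exact hγ k
    · obtain ⟨h, s, M, e1, e2, e3, e4⟩ := hB _ h1
      refine ⟨h, s, M, e1, ?_, e3, e4⟩
      rw [h3]
      exact_mod_cast e2
    · refine ⟨g.y l, g.y l, Pi.single l 1, g.yne l, Or.inr ?_, ?_, ?_⟩
      · rw [h3]; simp
      · intro D
        rw [Finset.sum_eq_single l]
        · rw [Pi.single_eq_same, one_mul, mul_div_cancel₀ _ (g.yne l)]
        · intro j _ hj
          rw [Pi.single_eq_of_ne hj, zero_mul]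
        · intro h; exact absurd (Finset.mem_univ _) h
      · rw [hl]
        have hreg : ∀ j, v.Reg ((Pi.single l (1 : L) : Fin (d + r) → L) j) := by
          intro j
          by_cases hj : j = l
          · subst hj
            rw [Pi.single_eq_same]
            exact v.reg_one
          · rw [Pi.single_eq_of_ne hj]
            exact v.reg_zero
        refine ⟨hreg, fun j => ?_⟩
        by_cases hj : j = l
        · subst hj
          have e1 : (Pi.single j (1 : Kp v) : Fin (d + r) → Kp v) j = 1 := by simp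
          exact (red_of_one _ (Pi.single_eq_same _ _)).trans e1.symm
        · have e1 : (Pi.single l (1 : Kp v) : Fin (d + r) → Kp v) j = 0 := by simp [hj]
          exact (red_of_zero _ (Pi.single_eq_of_ne hj _)).trans e1.symm
  choose h s M hs hh hD hM using hdata
  let Mm : Matrix (Fin (d + r)) (Fin d) L := Matrix.of fun l i => M i l
  let Λ : Matrix (Fin d) (Fin (d + r)) L :=
    Matrix.of fun (j : Fin d) (l : Fin (d + r)) => g.X.T.D (g.e.symm j) (g.y l) / g.y l
  -- the determinant
  let N0 : Matrix (Fin (d + r)) (Fin (d + r)) L := Matrix.of fun l i =>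
    Fin.addCases (fun i => Mm l i) (fun j => aeval g.y (X l * pderiv l (g.F j)) / t j) i
  obtain ⟨n1, n2⟩ := det_ord_zero (v := v) N0
    (Matrix.of fun l i : Fin (d + r) =>
      (Fin.addCases (fun i => u i l) (fun j => θ j l) i : Kp v)) (by
      intro l i
      refine Fin.addCases (fun i => ?_) (fun j => ?_) i
      · obtain ⟨h1, h2⟩ := hM i
        simp only [N0, Matrix.of_apply, Fin.addCases_left, Mm]
        exact ⟨h1 l, h2 l⟩
      · obtain ⟨h1, h2⟩ := hθ j
        simp only [N0, Matrix.of_apply, Fin.addCases_right]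
        exact ⟨h1 l, h2 l⟩) hdet
  have hcol : (GM g.y g.F Mm).det = (∏ j, t j) * N0.det := by
    have h1 := Matrix.det_mul_row (Fin.addCases (fun _ => 1) t : Fin (d + r) → L) N0
    rw [Fin.prod_univ_add] at h1
    simp only [Fin.addCases_left, Fin.addCases_right, Finset.prod_const_one, one_mul] at h1
    rw [← h1]
    congr 1
    ext l i
    refine Fin.addCases (fun i => ?_) (fun j => ?_) i
    · simp [GM, N0]
    · simp only [GM, N0, Matrix.of_apply, Fin.addCases_right]
      rw [mul_div_cancel₀ _ (ht j)]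
  have hid : (Λ * Mm).det = (GM g.y g.F Mm).det := g.res Mm
  rw [hcol] at hid
  have htp : (∏ j, t j) ≠ 0 := Finset.prod_ne_zero_iff.2 fun j _ => ht j
  have hΛ0 : (Λ * Mm).det ≠ 0 := by
    rw [hid]
    exact mul_ne_zero htp n1
  have hΛo : v.ord (Λ * Mm).det = ∑ j, φ j := by
    rw [hid, v.map_mul _ _ htp n1, n2, add_zero, v.ord_prod _ _ fun j _ => ht j]
    exact Finset.sum_congr rfl fun j _ => ht' j
  -- the Jacobian matrix
  have hJ : (Matrix.of fun (j i : Fin g.X.d) => g.X.T.D j (h (g.e i))).det =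
      (∏ i, s i) * (Λ * Mm).det := by
    rw [← Matrix.det_mul_row, ← Matrix.det_submatrix_equiv_self g.e]
    congr 1
    ext j i
    simp only [Matrix.of_apply, Matrix.submatrix_apply, Matrix.mul_apply]
    rw [hD]
    congr 1
    refine Finset.sum_congr rfl fun l _ => ?_
    simp only [Λ, Mm, Matrix.of_apply, Equiv.symm_apply_apply]
    ring
  have hp : (∏ i, s i) ≠ 0 := Finset.prod_ne_zero_iff.2 fun i _ => hs i
  have hJ0 : (Matrix.of fun (j i : Fin g.X.d) => g.X.T.D j (h (g.e i))).det ≠ 0 := by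
    rw [hJ]
    exact mul_ne_zero hp hΛ0
  have hne : ∀ i, h i ≠ 0 := by
    intro i h0
    apply hJ0
    refine Matrix.det_eq_zero_of_column_eq_zero (g.e.symm i) fun j => ?_
    simp only [Matrix.of_apply, Equiv.apply_symm_apply]
    rw [h0, map_zero]
  have h1 := gji v g.X.T.D A hA0 hA (fun i => h (g.e i)) (fun i => hne _) hJ0
  rw [hJ, v.map_mul _ _ hp hΛ0, hΛo, v.ord_prod _ _ fun i _ => hs i,
    g.e.sum_comp fun i => v.ord (h i)] at h1
  have h2 : ∑ i, (v.ord (s i) + c i) ≤ ∑ i, v.ord (h i) :=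
    Finset.sum_le_sum fun i _ => (hh i).resolve_left (hne i)
  rw [Finset.sum_add_distrib] at h2
  constructor <;> linarith

end Pool.Agent.Helper56.LP
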