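import Pool.Agent.Helper56.LC.Pair
import Pool.Agent.Helper56.LP.Low
import Pool.Agent.Helper56.LP.Defs

/-!
# The data of a prime divisor over a closed point of a nondegenerate pair
-/

set_option autoImplicit false
set_option linter.unusedSectionVars false
set_option linter.unusedVariables false

namespace Pool.Agent.Helper56.LP

open Pool.Agent.Helper56.LC
open Pool.Agent.H436R3.Fol Pool.Agent.H436R3.KT Pool.Agent.W497.Mld MvPolynomial
open Pool.Agent.TH165.ACC (pr ex Prim Cn Hs lead part pr_add pr_zero pr_neg pr_sub pr_smul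
  pr_smul_right ex_add ex_inj exists_nat_ex mvI mem_mvI ord_eq_zero_of_notMem lead_eq euler_part
  support_euler coeff_part)
open Pool.Agent.Helper43K9.NH (ch AA wt Inn expo phi dot ch_ne ch_add ch_sub ch_zero ch_ex
  aeval_eq_sum aeval_mon ord_ch ch_mem_AA Phi' reg_mul_zpow' Phi'_monomial der_aeval aeval_euler
  phi_expo expo_nonempty phi_spec mem_expo)
open Pool.Agent.Helper43K9.CI
open Pool.Agent.Helper43K9.LS (Kp red Red Good red_eq_zero)

variable {r d s : ℕ} {L : Type} [Field L] [Algebra ℂ L]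

attribute [local instance] algK

theorem poly_ne {y : Fin (d + r) → L} {p : MvPolynomial (Fin (d + r)) ℂ} (h : aeval y p ≠ 0) :
    p ≠ 0 := by
  rintro rfl
  exact h (map_zero _)

theorem lead_part {n : ℕ} {p : MvPolynomial (Fin n) ℂ} (hp : p ≠ 0) (w : Fin n → ℤ) :
    lead w p = part w (phi (expo p) w) p := lead_eq (phi_expo hp _).1 (phi_expo hp _).2

theorem lead_hom {n : ℕ} {p : MvPolynomial (Fin n) ℂ} (hp : p ≠ 0) (w : Fin n → ℤ) :
    ∀ s ∈ (lead w p).support, pr (ex s) w = phi (expo p) w := by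
  intro s hs
  rw [lead_part hp] at hs
  exact (support_part _ _ _ hs).2

section phi

variable {n : ℕ} {y : Fin n → L} (hy : ∀ i, y i ≠ 0) {v : DVal L} {π : L} (hπ : π ≠ 0)
  (h1 : v.ord π = 1)

/-- the normalised logarithmic gradient -/
theorem red_grad {p : MvPolynomial (Fin n) ℂ} (hp : p ≠ 0) :
    Red v (fun l => aeval y (X l * pderiv l p) / π ^ (phi (expo p) (wt y v)))
      (lg (xi hy hπ h1) (lead (wt y v) p)) := by
  have h3 : ∀ l, ∃ h : v.Reg (aeval y (X l * pderiv l p) / π ^ (phi (expo p) (wt y v))),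
      red v ⟨_, h⟩ = lg (xi hy hπ h1) (lead (wt y v) p) l := by
    intro l
    obtain ⟨h4, h5⟩ := red_val hy hπ h1 (q := X l * pderiv l p)
      (m := phi (expo p) (wt y v)) fun s hs =>
        (phi_expo hp _).2 s (support_euler _ _ hs)
    have h6 : aeval y (X l * pderiv l p) / π ^ (phi (expo p) (wt y v)) =
        aeval y (X l * pderiv l p) * π ^ (-phi (expo p) (wt y v)) := by
      rw [zpow_neg, div_eq_mul_inv]
    simp only [h6]
    refine ⟨h4, h5.trans ?_⟩
    rw [← euler_part, ← lead_part hp]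
    rfl
  choose h4 h5 using h3
  exact ⟨h4, h5⟩

/-- the initial form at the residual point -/
theorem lead_xi {p : MvPolynomial (Fin n) ℂ} (hp : p ≠ 0)
    (h : aeval y p = 0 ∨ phi (expo p) (wt y v) < v.ord (aeval y p)) :
    aeval (xi hy hπ h1) (lead (wt y v) p) = 0 := by
  obtain ⟨h2, h3⟩ := red_val hy hπ h1 (q := p) (m := phi (expo p) (wt y v)) (phi_expo hp _).2
  rw [lead_part hp, ← h3, red_eq_zero]
  change v.Pos (aeval y p * π ^ (-phi (expo p) (wt y v)))
  rcases h with h | h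
  · left
    rw [h, zero_mul]
  · by_cases h0 : aeval y p = 0
    · left
      rw [h0, zero_mul]
    · right
      rw [v.map_mul _ _ h0 (zpow_ne_zero _ hπ), v.ord_zpow hπ, h1]
      omega

/-- the gain of a function of large order -/
theorem gd_of {p : MvPolynomial (Fin n) ℂ} (hp : aeval y p ≠ 0) (hp0 : p ≠ 0) :
    Gd y v (v.ord (aeval y p) - phi (expo p) (wt y v))
      (lg (xi hy hπ h1) (lead (wt y v) p)) := by
  have hπa : π ^ (phi (expo p) (wt y v)) ≠ 0 := zpow_ne_zero _ hπ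
  have hoa : v.ord (π ^ (phi (expo p) (wt y v))) = phi (expo p) (wt y v) := by
    rw [v.ord_zpow hπ, h1, mul_one]
  refine ⟨aeval y p, π ^ (phi (expo p) (wt y v)),
    fun l => aeval y (X l * pderiv l p) / π ^ (phi (expo p) (wt y v)), hπa, ?_, ?_,
    red_grad hy hπ h1 hp0⟩
  · right
    rw [hoa]
    omega
  · intro D
    rw [der_aeval hy, Finset.mul_sum]
    refine Finset.sum_congr rfl fun l _ => ?_
    rw [← mul_assoc, mul_div_cancel₀ _ hπa]

end phi

theorem pair_data (g : CIGerm r d L) {G : Fin s → MvPolynomial (Fin (d + r)) ℂ}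
    (hG : ∀ k, aeval g.y (G k) ≠ 0) {x : Pt g.X} {v : DVal L} (hv : IsOverGerm x v) :
    ∃ (κ : Type) (_ : Field κ) (_ : Algebra ℂ κ) (η : Fin (d + r) → κ)
      (T : Finset (Fin (d + r))), (∀ i, η i ≠ 0) ∧
      (∀ m ∈ Cn g.E, 0 ≤ pr m (wt g.y v)) ∧
      (∀ m ∈ Cn g.E, pr m (wt g.y v) = 0 → ∃ c : ℂ, ch η m = algebraMap ℂ κ c) ∧
      (∀ j, aeval η (lead (wt g.y v) (g.F j)) = 0) ∧
      (∀ k, phi (expo (G k)) (wt g.y v) < v.ord (aeval g.y (G k)) →
        aeval η (lead (wt g.y v) (G k)) = 0) ∧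
      (∀ (S : Finset (Fin (d + r) → ℤ)) (a : (Fin (d + r) → ℤ) → ℂ), (∀ m ∈ S, m ∈ Cn g.E) →
        ∑ m ∈ S, algebraMap ℂ κ (a m) * ch η m = 0 → ∃ S' ⊆ S, (0 ∈ S → 0 ∈ S') ∧
          ∀ h : g.X.R, (h : L) = ∑ m ∈ S', algebraMap ℂ L (a m) * ch g.y m → x h = 0) ∧
      AlgebraicIndependent ℂ (fun l : T => η l) ∧
      ∀ (K' : Finset (Fin s)), (LinearIndependent κ fun a : Fin r ⊕ K' =>
          lg η (lead (wt g.y v) (Sum.elim g.F (fun k : K' => G k) a))) → ∀ c : ℤ,
        IsCanOrd g.X.T v c →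
        ∑ k ∈ K', (v.ord (aeval g.y (G k)) - phi (expo (G k)) (wt g.y v)) +
          ((d + r : ℕ) : ℤ) - T.card - r - K'.card - 1 - ∑ j, phi (g.S j) (wt g.y v) ≤ c ∧
        ∑ k ∈ K', (v.ord (aeval g.y (G k)) - phi (expo (G k)) (wt g.y v)) - 1 -
          ∑ j, phi (g.S j) (wt g.y v) ≤ c := by
  classical
  obtain ⟨π, hπ, h1⟩ := v.surj
  let ξ : Fin (d + r) → Kp v := xi g.yne hπ h1
  have hξ : ∀ i, ξ i ≠ 0 := xi_ne g.yne hπ h1
  have hG0 : ∀ k, G k ≠ 0 := fun k => poly_ne (hG k)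
  have hmem : ∀ m ∈ Cn g.E, ch g.y m ∈ g.X.R := by
    intro m hm
    rw [g.hR]
    exact ch_mem_AA hm
  have hreg : ∀ f : g.X.R, v.Reg (f : L) := by
    obtain ⟨⟨S, -, h1, h2⟩, -⟩ := hv
    exact fun f => h2.1 _ (h1 f.2)
  have hw : ∀ m ∈ Cn g.E, 0 ≤ pr m (wt g.y v) := by
    intro m hm
    rw [← ord_ch g.yne]
    exact v.ord_nonneg (ch_ne g.yne _) (hreg ⟨_, hmem m hm⟩)
  -- the constants
  have hcon : ∀ m (hm : m ∈ Cn g.E), pr m (wt g.y v) = 0 →
      ch ξ m = algebraMap ℂ (Kp v) (x ⟨ch g.y m, hmem m hm⟩) := by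
    intro m hm h0
    obtain ⟨h2, h3⟩ := red_ch g.yne hπ h1 h0
    rw [algK_apply v _ (v.reg_const _)]
    change ch (xi g.yne hπ h1) m = _
    rw [← h3, ← sub_eq_zero, ← map_sub, red_eq_zero]
    have h4 : x (⟨ch g.y m, hmem m hm⟩ - algebraMap ℂ g.X.R (x ⟨ch g.y m, hmem m hm⟩)) = 0 := by
      rw [map_sub, AlgHom.commutes]
      exact sub_self _
    exact (hv.2 _).2 h4
  obtain ⟨T, hT, hrel⟩ := exists_rel_hom hξ (wt g.y v)
  refine ⟨KX (Kp v), inferInstance, inferInstance, et ξ (wt g.y v), T, et_ne hξ _, hw, ?_, ?_, ?_,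
    ?_, hT, ?_⟩
  · intro m hm h0
    refine ⟨x ⟨ch g.y m, hmem m hm⟩, ?_⟩
    rw [ch_et, h0, zpow_zero, mul_one, hcon m hm h0, cX_alg]
  · intro j
    rw [aeval_et_hom ξ (lead_hom (g.Fne j) _), lead_xi g.yne hπ h1 (g.Fne j) (Or.inl (F_zero g j)),
      map_zero, zero_mul]
  · intro k hk
    rw [aeval_et_hom ξ (lead_hom (hG0 k) _), lead_xi g.yne hπ h1 (hG0 k) (Or.inr hk),
      map_zero, zero_mul]
  · intro S a hS hsum
    refine ⟨S.filter fun m => pr m (wt g.y v) = 0, Finset.filter_subset _ _, fun h0 =>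
      Finset.mem_filter.2 ⟨h0, pr_zero _⟩, fun h hh => ?_⟩
    have h2 : ∑ k ∈ S.image fun m => pr m (wt g.y v),
        cX (∑ m ∈ S with pr m (wt g.y v) = k, algebraMap ℂ (Kp v) (a m) * ch ξ m) * tX ^ k =
          0 := by
      rw [← hsum, ← Finset.sum_fiberwise_of_maps_to (t := S.image fun m => pr m (wt g.y v))
        (g := fun m => pr m (wt g.y v)) fun s hs => Finset.mem_image_of_mem _ hs]
      refine Finset.sum_congr rfl fun k _ => ?_
      rw [map_sum, Finset.sum_mul]
      refine Finset.sum_congr rfl fun m hm => ?_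
      rw [ch_et, (Finset.mem_filter.1 hm).2, ← cX_alg, map_mul, mul_assoc]
    have h3 : ∑ m ∈ S with pr m (wt g.y v) = 0, algebraMap ℂ (Kp v) (a m) * ch ξ m = 0 := by
      by_cases h4 : (0 : ℤ) ∈ S.image fun m => pr m (wt g.y v)
      · exact laurent_zero _ _ h2 0 h4
      · refine Finset.sum_eq_zero fun m hm => ?_
        obtain ⟨h5, h6⟩ := Finset.mem_filter.1 hm
        exact absurd (Finset.mem_image.2 ⟨m, h5, h6⟩) h4
    let f : (Fin (d + r) → ℤ) → g.X.R := fun m =>
      if hm : m ∈ Cn g.E then ⟨ch g.y m, hmem m hm⟩ else 0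
    have hf : ∀ m (hm : m ∈ Cn g.E), f m = ⟨ch g.y m, hmem m hm⟩ := by
      intro m hm
      simp only [f]
      rw [dif_pos hm]
    have h4 : h = ∑ m ∈ S with pr m (wt g.y v) = 0, algebraMap ℂ g.X.R (a m) * f m := by
      apply Subtype.ext
      rw [hh]
      push_cast
      refine Finset.sum_congr rfl fun m hm => ?_
      rw [hf m (hS m (Finset.mem_filter.1 hm).1)]
    apply (algebraMap ℂ (Kp v)).injective
    rw [map_zero, ← h3, h4, map_sum, map_sum]
    refine Finset.sum_congr rfl fun m hm => ?_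
    obtain ⟨h5, h6⟩ := Finset.mem_filter.1 hm
    rw [map_mul, map_mul, AlgHom.commutes, hf m (hS m h5), hcon m (hS m h5) h6]
    rfl
  · intro K' hli c hc
    obtain ⟨A, hA0, hA, rfl⟩ := hc.1
    let pol : Fin r ⊕ K' → MvPolynomial (Fin (d + r)) ℂ := Sum.elim g.F (fun k : K' => G k)
    have hpol : ∀ a, pol a ≠ 0 := by
      rintro (j | k)
      · exact g.Fne j
      · exact hG0 k
    -- the gradients
    have hlg : ∀ a l, lg (et ξ (wt g.y v)) (lead (wt g.y v) (pol a)) l =
        cX (lg ξ (lead (wt g.y v) (pol a)) l) * tX ^ (phi (expo (pol a)) (wt g.y v)) := by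
      intro a l
      rw [lg, lg]
      exact aeval_et_hom ξ fun s hs => lead_hom (hpol a) _ s (support_euler _ _ hs)
    have hθi : LinearIndependent (Kp v)
        (fun a => (lg ξ (lead (wt g.y v) (pol a)) : Fin (d + r) → Kp v)) := by
      rw [Fintype.linearIndependent_iff]
      intro c hc a
      have h2 := Fintype.linearIndependent_iff.1 hli
        (fun a => cX (c a) * tX ^ (-phi (expo (pol a)) (wt g.y v))) (by
          funext l
          have h3 := congrFun hc l
          rw [Finset.sum_apply] at h3 ⊢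
          simp only [Pi.smul_apply, smul_eq_mul, Pi.zero_apply] at h3 ⊢
          rw [← map_zero cX, ← h3, map_sum]
          refine Finset.sum_congr rfl fun a _ => ?_
          have h5 := hlg a l
          rw [show lg (et ξ (wt g.y v)) (lead (wt g.y v) (Sum.elim g.F (fun k : K' => G k) a)) l =
            _ from h5, map_mul, zpow_neg]
          have h4 := zpow_ne_zero (phi (expo (pol a)) (wt g.y v)) (tX_ne (κ := Kp v))
          field_simp) a
      rcases mul_eq_zero.1 h2 with h3 | h3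
      · rwa [map_eq_zero_iff _ (RingHom.injective _)] at h3
      · exact absurd h3 (zpow_ne_zero _ tX_ne)
    -- the good vectors
    choose! q a hqa hq0 hql hql' using hrel
    obtain ⟨B, hBc, hBq, hBi⟩ := diag_indep T (fun l => lg ξ (q l)) hql hql'
    have hsplit : (fun a => (lg ξ (lead (wt g.y v) (pol a)) : Fin (d + r) → Kp v)) =
        Sum.elim (fun j => lg ξ (lead (wt g.y v) (g.F j)))
          (fun k : K' => lg ξ (lead (wt g.y v) (G k))) := by
      funext a
      rcases a with j | k <;> rfl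
    rw [hsplit] at hθi
    have h2 := low_gain (g := g) (v := v) (φ := fun j => phi (g.S j) (wt g.y v))
      (t := fun j => π ^ (phi (g.S j) (wt g.y v))) (fun j => zpow_ne_zero _ hπ)
      (fun j => by rw [v.ord_zpow hπ, h1, mul_one])
      (θ := fun j => lg ξ (lead (wt g.y v) (g.F j)))
      (fun j => red_grad g.yne hπ h1 (g.Fne j))
      (γ := fun k : K' => lg ξ (lead (wt g.y v) (G k)))
      (fun k : K' => v.ord (aeval g.y (G k)) - phi (expo (G k)) (wt g.y v))
      (fun k => gd_of g.yne hπ h1 (hG k) (hG0 k)) hθi (B := B) (by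
        intro u hu
        obtain ⟨l, hl, rfl⟩ := hBq u hu
        exact good_of_hom g.yne hπ h1 (hqa l hl) (hq0 l hl)) hBi A hA0 hA
    rw [Finset.sum_coe_sort K' fun k => v.ord (aeval g.y (G k)) - phi (expo (G k)) (wt g.y v),
      Fintype.card_coe] at h2
    have h3 : (B.card : ℤ) = ((d + r : ℕ) : ℤ) - T.card := by omega
    rw [h3] at h2
    refine ⟨?_, h2.2⟩
    have h4 := h2.1
    linarith

end Pool.Agent.Helper56.LP
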