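import Pool.Agent.Helper56.LC.Core
import Pool.Agent.Helper56.LP.Step
import Pool.Agent.Helper56.LP.Pair

/-!
# The minimum formula for nondegenerate pairs
-/

set_option autoImplicit false
set_option linter.unusedSectionVars false
set_option linter.unusedVariables false

namespace Pool.Agent.Helper56.LP

open Pool.Agent.Helper56.LC
open Pool.Agent.H436R3.Fol Pool.Agent.H436R3.KT Pool.Agent.W497.Mld MvPolynomial
open Pool.Agent.TH165.ACC (pr ex Prim Cn Hs lead part pr_add pr_zero pr_neg pr_sub pr_smul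
  pr_smul_right ex_add ex_inj exists_prim)
open Pool.Agent.Helper43K9.NH (ch AA wt Inn expo phi dot ch_ne phi_expo expo_nonempty phi_spec
  mem_expo ge_of_weights phi_smul dot_smul)
open Pool.Agent.Helper43K9.CI

variable {r d s : ℕ} {L : Type} [Field L] [Algebra ℂ L]
variable {g : CIGerm r d L} {G : Fin s → MvPolynomial (Fin (d + r)) ℂ}

/-- subfamilies of a nondegenerate system -/
theorem nd_family (hnd : NondegPair g G) (K' : Finset (Fin s)) {r' : ℕ}
    (ε : Fin r' ≃ Fin r ⊕ K') : ∀ w, Inn g.E w → ∀ ζ : Fin (d + r) → ℂ, (∀ i, ζ i ≠ 0) →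
      (∀ a, eval ζ (lead w (Sum.elim g.F (fun k : K' => G k) (ε a))) = 0) →
        LinearIndependent ℂ fun (a : Fin r') (i : Fin (d + r)) =>
          eval ζ (pderiv i (lead w (Sum.elim g.F (fun k : K' => G k) (ε a)))) := by
  intro w hw ζ hζ h0
  have h1 := hnd w hw ζ hζ fun j => by
    have h2 := h0 (ε.symm (Sum.inl j))
    rw [Equiv.apply_symm_apply] at h2
    exact h2
  have h2 : ∀ k : K', eval ζ (lead w (G k)) = 0 := by
    intro k
    have h2 := h0 (ε.symm (Sum.inr k))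
    rw [Equiv.apply_symm_apply] at h2
    exact h2
  let f : Fin r ⊕ K' → Fin r ⊕ {k : Fin s // eval ζ (lead w (G k)) = 0} :=
    Sum.map id fun k => ⟨k, h2 k⟩
  have hf : Function.Injective f := Sum.map_injective.2 ⟨Function.injective_id, fun a b h => by
    have h3 := congrArg Subtype.val h
    exact Subtype.ext h3⟩
  have h3 := h1.comp (f ∘ ε) (hf.comp ε.injective)
  have h4 : (fun (a : Fin r') (i : Fin (d + r)) =>
      eval ζ (pderiv i (lead w (Sum.elim g.F (fun k : K' => G k) (ε a))))) =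
      (fun (a : Fin r ⊕ {k : Fin s // eval ζ (lead w (G k)) = 0}) (i : Fin (d + r)) =>
          eval ζ (pderiv i (lead w (Sum.elim g.F (fun k => G (k : Fin s)) a)))) ∘ (f ∘ ε) := by
    funext a i
    simp only [Function.comp_apply, f]
    rcases ε a with j | k <;> rfl
  rw [h4]
  exact h3

theorem indep_lead (hnd : NondegPair g G) {κ : Type} [Field κ] [Algebra ℂ κ]
    {η : Fin (d + r) → κ} (hη : ∀ i, η i ≠ 0) {w : Fin (d + r) → ℤ} (hw : Inn g.E w)
    (hF : ∀ j, aeval η (lead w (g.F j)) = 0) (K' : Finset (Fin s))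
    (hK : ∀ k ∈ K', aeval η (lead w (G k)) = 0) :
    LinearIndependent κ fun a : Fin r ⊕ K' =>
      lg η (lead w (Sum.elim g.F (fun k : K' => G k) a)) := by
  classical
  let ε : Fin (Fintype.card (Fin r ⊕ K')) ≃ Fin r ⊕ K' := (Fintype.equivFin _).symm
  obtain ⟨σ, hσ⟩ := exists_minor_of_null
    (fun a => lead w (Sum.elim g.F (fun k : K' => G k) (ε a))) (nd_family hnd K' ε w hw) η hη (by
      intro a
      rcases ε a with j | k
      · exact hF j
      · exact hK k k.2)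
  have h1 := indep_of_minor _ σ hσ
  exact (linearIndependent_equiv ε).1 h1

/-- the order of the boundary along the divisors of least canonical order -/
theorem ord_G (hnd : NondegPair g G) (hG : ∀ k, aeval g.y (G k) ≠ 0) {v : DVal L}
    (hv : IsOverGerm g.P v) (hc : IsCanOrd g.X.T v (-1 - ∑ j, phi (g.S j) (wt g.y v)))
    (k : Fin s) : v.ord (aeval g.y (G k)) = phi (expo (G k)) (wt g.y v) := by
  have h1 : phi (expo (G k)) (wt g.y v) ≤ v.ord (aeval g.y (G k)) :=
    (ge_of_weights g.yne (phi_expo (poly_ne (hG k)) _).2).resolve_left (hG k)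
  by_contra hne
  have hlt : phi (expo (G k)) (wt g.y v) < v.ord (aeval g.y (G k)) := by omega
  obtain ⟨κ, _, _, η, T, hη, -, -, hF, hGk, -, -, hlow⟩ := pair_data g hG hv
  have h2 := (hlow {k} (indep_lead hnd hη (inn_of_over hv) hF {k} (by
    intro k' hk'
    rw [Finset.mem_singleton.1 hk']
    exact hGk k hlt)) _ hc).2
  rw [Finset.sum_singleton] at h2
  omega

theorem laP_smul (hG0 : ∀ k, G k ≠ 0) (b : Bdry g G) {k : ℤ} (hk : 0 ≤ k)
    (w : Fin (d + r) → ℤ) : laP b (k • w) = k * laP b w := by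
  rw [laP, laP, dot_smul]
  have h1 : ∀ j, (phi (g.S j) (k • w) : ℝ) = k * (phi (g.S j) w : ℝ) := fun j => by
    rw [phi_smul (S_ne g j) hk]; push_cast; rfl
  have h2 : ∀ j, b.b j * (phi (expo (G j)) (k • w) : ℝ) =
      k * (b.b j * (phi (expo (G j)) w : ℝ)) := fun j => by
    rw [phi_smul (expo_nonempty (hG0 j)) hk]; push_cast; ring
  simp only [h1, h2]
  rw [← Finset.mul_sum, ← Finset.mul_sum]
  ring

/-- steps do not increase the toric log discrepancy -/
theorem laP_step (hG0 : ∀ k, G k ≠ 0) (b : Bdry g G) {I : Finset (Fin g.N)}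
    {w : Fin (d + r) → ℤ}
    (h : ∑ j, (phi (g.S j) w : ℝ) + ∑ i ∈ I, ∑ j, (phi (g.S j) (g.E i) : ℝ) + (I.card : ℝ) ≤
        ∑ j, (phi (g.S j) (w + ∑ i ∈ I, g.E i) : ℝ)) :
    laP b (w + ∑ i ∈ I, g.E i) ≤ laP b w := by
  have h1 : ∑ i ∈ I, dot b.ψ (g.E i) ≤ (I.card : ℝ) + ∑ i ∈ I, ∑ j, (phi (g.S j) (g.E i) : ℝ) +
      ∑ i ∈ I, ∑ k, b.b k * (phi (expo (G k)) (g.E i) : ℝ) := by
    have h2 : ∑ i ∈ I, dot b.ψ (g.E i) ≤ ∑ i ∈ I, (1 + ∑ j, (phi (g.S j) (g.E i) : ℝ) +
        ∑ k, b.b k * (phi (expo (G k)) (g.E i) : ℝ)) := by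
      refine Finset.sum_le_sum fun i _ => ?_
      rw [b.eq]
      have := b.nonneg i
      linarith
    rw [Finset.sum_add_distrib, Finset.sum_add_distrib, Finset.sum_const, nsmul_eq_mul,
      mul_one] at h2
    exact h2
  have h2 : ∑ k, b.b k * (phi (expo (G k)) w : ℝ) +
      ∑ i ∈ I, ∑ k, b.b k * (phi (expo (G k)) (g.E i) : ℝ) ≤
        ∑ k, b.b k * (phi (expo (G k)) (w + ∑ i ∈ I, g.E i) : ℝ) := by
    rw [Finset.sum_comm, ← Finset.sum_add_distrib]
    refine Finset.sum_le_sum fun k _ => ?_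
    rw [← Finset.mul_sum, ← mul_add]
    refine mul_le_mul_of_nonneg_left ?_ (b.b_nonneg k)
    exact_mod_cast (phi_grow (E := g.E) (expo_nonempty (hG0 k)) I w).1
  rw [laP, laP, Pool.Agent.Helper58K9.CI.dot_add, Pool.Agent.Helper58K9.CI.dot_sum]
  linarith

/-- The minimum formula, the upper bound. -/
theorem hminP (hdr : 0 < d + r) (hnd : NondegPair g G) (hG : ∀ k, aeval g.y (G k) ≠ 0)
    (hk : KltPair g G) (b : Bdry g G) {m : ℝ} (hm0 : 0 ≤ m)
    (hm : ∀ v, IsOverGerm g.P v → ∀ c, IsCanOrd g.X.T v c → m ≤ 1 + (c : ℝ) +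
      dot b.ψ (wt g.y v) - ∑ k, b.b k * (v.ord (aeval g.y (G k)) : ℝ)) :
    ∀ w, Inn g.E w → m ≤ laP b w := by
  have hS := S_ne g
  have hG0 : ∀ k, G k ≠ 0 := fun k => poly_ne (hG k)
  have htrop : ∀ w, Inn g.E w → Bern g.S w → m ≤ laP b w := by
    intro w hi ht
    obtain ⟨k, w', hk0, hw', rfl⟩ := exists_prim (Pool.Agent.Helper43K9.CI.Inn.ne_zero hdr hi)
    obtain ⟨v, hv, hwt, hc⟩ := exists_over (bk opn red lim) lead_ inn (div lim evh cot trd prm)
      (top idx low) (hi.of_smul hk0) hw' (bern_smul hS hk0 ht)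
    have hoG := ord_G hnd hG hv (by rw [hwt]; exact hc)
    have h1 : m ≤ laP b w' := by
      refine (hm v hv _ hc).trans (le_of_eq ?_)
      simp only [hoG]
      rw [hwt, laP]
      push_cast
      ring
    rw [laP_smul hG0 _ hk0.le]
    have h2 : (1 : ℝ) ≤ k := by exact_mod_cast hk0
    nlinarith
  obtain ⟨b', ε, Q, hε, hQ, hlow⟩ := hk
  have key : ∀ (k : ℕ) (w : Fin (d + r) → ℤ), Inn g.E w → ⌈laP b' w / ε⌉ - pr Q w < k →
      m ≤ laP b w := by
    intro k
    induction k with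
    | zero =>
      intro w hw hc
      exfalso
      have h1 : (pr Q w : ℝ) ≤ laP b' w / ε := by
        rw [le_div_iff₀ hε, mul_comm]
        exact hlow w hw
      have h2 : (pr Q w : ℝ) ≤ (⌈laP b' w / ε⌉ : ℝ) := h1.trans (Int.le_ceil _)
      have h3 : pr Q w ≤ ⌈laP b' w / ε⌉ := by exact_mod_cast h2
      simp only [Nat.cast_zero] at hc
      omega
    | succ k ih =>
      intro w hw hc
      by_cases ht : Bern g.S w
      · exact htrop w hw ht
      have hR : ¬ Pool.Agent.Helper58K9.CI.RadoC g.S w := fun h =>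
        ht fun J => (h J).trans (finrank_real_le g.S w J)
      obtain ⟨I, hI, hInn, hle⟩ := stepV g.E g.S hS (pnt r d L g) w hw hR
      refine (ih _ hInn ?_).trans (laP_step hG0 b hle)
      have h1 : laP b' (w + ∑ i ∈ I, g.E i) ≤ laP b' w := laP_step hG0 b' hle
      have h5 : ⌈laP b' (w + ∑ i ∈ I, g.E i) / ε⌉ ≤ ⌈laP b' w / ε⌉ :=
        Int.ceil_le_ceil (div_le_div_of_nonneg_right h1 hε.le)
      have h2 : pr Q (w + ∑ i ∈ I, g.E i) = pr Q w + ∑ i ∈ I, pr Q (g.E i) := by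
        rw [Pool.Agent.Helper58K9.CI.pr_add_right, Pool.Agent.Helper58K9.CI.pr_sum_right]
      have h3 : 0 < ∑ i ∈ I, pr Q (g.E i) := Finset.sum_pos (fun i _ => hQ i) hI
      push_cast at hc
      omega
  intro w hw
  refine key (⌈laP b' w / ε⌉ - pr Q w + 1).toNat w hw ?_
  have := Int.self_le_toNat (⌈laP b' w / ε⌉ - pr Q w + 1)
  omega

end Pool.Agent.Helper56.LP
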